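import Pool.Agent.Q321.FANO.Stmts
import Pool.Agent.Y787.AS.Fl

set_option autoImplicit false

/-! `TaskFlanders` from the theorem `Pool.Agent.Y787.AS.flanders` of the library. -/

namespace H321.FANO

theorem flanders34 : TaskFlanders := by
  intro K _ _ U hU
  have h := Pool.Agent.Y787.AS.flanders (k := K) (n := 5) (t := 2) U hU
  simpa using h

end H321.FANO
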