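import Pool.Agent.Q321.FANO.Stmts

set_option autoImplicit false

namespace H321.FANO.TaskA1

open Matrix H321.FANO

variable {K : Type} [Field K]

theorem exists_right_inv {Q : Matrix (Fin 2) (Fin 3) K} (hQ : Q.rank = 2) :
    ∃ R : Matrix (Fin 3) (Fin 2) K, Q * R = 1 := by
  have hsurj : Function.Surjective Q.mulVecLin := by
    rw [← LinearMap.range_eq_top]
    apply Submodule.eq_top_of_finrank_eq
    rw [Module.finrank_fin_fun]
    exact hQ
  have h1 : ∀ j : Fin 2, ∃ v : Fin 3 → K, Q *ᵥ v = (1 : Matrix (Fin 2) (Fin 2) K).col j := by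
    intro j
    obtain ⟨v, hv⟩ := hsurj ((1 : Matrix (Fin 2) (Fin 2) K).col j)
    exact ⟨v, hv⟩
  choose r hr using h1
  refine ⟨Matrix.of fun i j => r j i, ?_⟩
  ext i j
  have h2 := congrFun (hr j) i
  simp only [Matrix.mulVec, dotProduct, Matrix.col_apply] at h2
  simp only [Matrix.mul_apply, Matrix.of_apply]
  exact h2

theorem rank_of_det {Q : Matrix (Fin 2) (Fin 3) K} (R : Matrix (Fin 3) (Fin 2) K)
    (h : (Q * R).det ≠ 0) : Q.rank = 2 := by
  apply le_antisymm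
  · exact (Q.rank_le_height).trans (by simp)
  · have h1 : (Q * R).rank = 2 := by
      rw [Matrix.rank_of_isUnit _ ((Matrix.isUnit_iff_isUnit_det _).2 (isUnit_iff_ne_zero.2 h))]
      simp
    exact h1.symm.le.trans (Matrix.rank_mul_le_left Q R)

theorem finite_bad {Q0 : Matrix (Fin 2) (Fin 3) K} (Q1 : Matrix (Fin 2) (Fin 3) K)
    (h0 : Q0.rank = 2) : {s : K | (Q0 + s • Q1).rank ≠ 2}.Finite := by
  obtain ⟨R, hR⟩ := exists_right_inv h0
  let T := Q1 * R
  let f : Polynomial K := Polynomial.C 1 + Polynomial.C (T 0 0 + T 1 1) * Polynomial.X +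
    Polynomial.C (T 0 0 * T 1 1 - T 0 1 * T 1 0) * Polynomial.X ^ 2
  have hf : f ≠ 0 := by
    intro h
    have h1 := congrArg (Polynomial.eval 0) h
    simp [f] at h1
  have h1 : {s : K | (Q0 + s • Q1).rank ≠ 2} ⊆ {s : K | f.IsRoot s} := by
    intro s hs
    by_contra h2
    apply hs
    refine rank_of_det R ?_
    rw [Matrix.add_mul, hR, Matrix.smul_mul, Matrix.det_fin_two]
    intro h3
    apply h2
    change Polynomial.eval s f = 0
    simp only [f, Polynomial.eval_add, Polynomial.eval_mul, Polynomial.eval_C, Polynomial.eval_X,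
      Polynomial.eval_pow]
    simp only [Matrix.add_apply, Matrix.smul_apply, smul_eq_mul, Matrix.one_apply_eq] at h3
    rw [Matrix.one_apply_ne (by decide), Matrix.one_apply_ne (by decide)] at h3
    simp only [T]
    linear_combination h3
  exact (Polynomial.finite_setOfPred_isRoot hf).subset h1

theorem finite_zero {P0 P1 : Matrix (Fin 3) (Fin 2) K} (h : P0 ≠ 0 ∨ P1 ≠ 0) :
    {s : K | P0 + s • P1 = 0}.Finite := by
  apply Set.Subsingleton.finite
  intro s hs t ht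
  change P0 + s • P1 = 0 at hs
  change P0 + t • P1 = 0 at ht
  have h1 : (s - t) • P1 = 0 := by
    rw [sub_smul]
    have : s • P1 - t • P1 = (P0 + s • P1) - (P0 + t • P1) := by abel
    rw [this, hs, ht, sub_zero]
  rcases smul_eq_zero.1 h1 with h2 | h2
  · exact sub_eq_zero.1 h2
  · exfalso
    rw [h2, smul_zero, add_zero] at hs
    rcases h with h | h
    · exact h hs
    · exact h h2

theorem exists_good [Infinite K] {Q0 Q1 : Matrix (Fin 2) (Fin 3) K} {P0 P1 : Matrix (Fin 3) (Fin 2) K}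
    (h0 : Q0.rank = 2) (h : P0 ≠ 0 ∨ P1 ≠ 0) :
    ∃ s : K, s ≠ 0 ∧ (Q0 + s • Q1).rank = 2 ∧ P0 + s • P1 ≠ 0 := by
  have h1 := ((finite_bad Q1 h0).union (finite_zero h)).union (Set.finite_singleton (0 : K))
  obtain ⟨s, hs⟩ := h1.infinite_compl.nonempty
  refine ⟨s, ?_, ?_, ?_⟩
  · intro h2
    exact hs (Or.inr h2)
  · by_contra h2
    exact hs (Or.inl (Or.inl h2))
  · intro h2
    exact hs (Or.inl (Or.inr h2))

theorem eq_zero_of_vecMulVec {m : ℕ} {a : Fin m → K} {w : Fin 2 → K} (hw : w ≠ 0)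
    (h : vecMulVec a w = 0) : a = 0 := by
  obtain ⟨j, hj⟩ := Function.ne_iff.1 hw
  funext i
  have h1 := congrFun (congrFun h i) j
  rw [vecMulVec_apply] at h1
  exact (mul_eq_zero.1 h1).resolve_right hj

/-- the kernel of a matrix of rank 2 -/
theorem mem_span {Q : Matrix (Fin 2) (Fin 3) K} (hQ : Q.rank = 2) {p0 : Fin 3 → K} (hp : p0 ≠ 0)
    (h0 : Q *ᵥ p0 = 0) {v : Fin 3 → K} (hv : Q *ᵥ v = 0) : v ∈ Submodule.span K {p0} := by
  have h1 := LinearMap.finrank_range_add_finrank_ker Q.mulVecLin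
  rw [Module.finrank_fin_fun] at h1
  have h2 : Module.finrank K (LinearMap.range Q.mulVecLin) = 2 := hQ
  have h3 : Module.finrank K (LinearMap.ker Q.mulVecLin) = 1 := by omega
  have hne : (⟨p0, h0⟩ : LinearMap.ker Q.mulVecLin) ≠ 0 := by
    intro h
    exact hp (congrArg Subtype.val h)
  obtain ⟨c, hc⟩ := (finrank_eq_one_iff_of_nonzero' _ hne).1 h3 ⟨v, hv⟩
  rw [Submodule.mem_span_singleton]
  exact ⟨c, congrArg Subtype.val hc⟩

theorem main : TaskA1 := by
  intro K _ _ N hN p0 hP ⟨a, ha, ha0⟩ ⟨b, hb, hb2⟩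
  have hp0 : p0 ≠ 0 := by
    intro h
    obtain ⟨w, hw⟩ := hP a ha
    apply ha0
    rw [hw, h]
    ext i j
    simp [vecMulVec_apply]
  -- the key step
  have key : ∀ x ∈ N, x.2.1 ≠ 0 → x.2.2.rank = 2 →
      x.2.2 *ᵥ p0 = 0 ∧ x.1 *ᵥ p0 ∈ Submodule.span K {p0} := by
    intro x hx hx0 hx2
    obtain ⟨w, hw⟩ := hP x hx
    have hw0 : w ≠ 0 := by
      intro h
      apply hx0
      rw [hw, h]
      ext i j
      simp [vecMulVec_apply]
    have h0 := hN.c0 x hx
    rw [hw, Matrix.mul_vecMulVec] at h0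
    have h1 := hN.c1 x hx
    rw [hw, Matrix.mul_vecMulVec] at h1
    have h2 := eq_zero_of_vecMulVec hw0 h0
    have h3 := eq_zero_of_vecMulVec hw0 h1
    rw [← Matrix.mulVec_mulVec] at h3
    exact ⟨h2, mem_span hx2 hp0 h2 h3⟩
  obtain ⟨s, -, hs2, hs0⟩ := exists_good (Q1 := a.2.2) (P0 := b.2.1) hb2 (Or.inr ha0)
  set x0 : Tr K := b + s • a with hx0
  have hx0N : x0 ∈ N := N.add_mem hb (N.smul_mem s ha)
  have hx0P : x0.2.1 ≠ 0 := hs0
  have hx0Q : x0.2.2.rank = 2 := hs2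
  obtain ⟨k1, k2⟩ := key x0 hx0N hx0P hx0Q
  have all : ∀ x ∈ N, x.2.2 *ᵥ p0 = 0 ∧ x.1 *ᵥ p0 ∈ Submodule.span K {p0} := by
    intro x hx
    obtain ⟨t, ht, ht2, ht0⟩ := exists_good (Q1 := x.2.2) (P1 := x.2.1) hx0Q (Or.inl hx0P)
    obtain ⟨l1, l2⟩ := key (x0 + t • x) (N.add_mem hx0N (N.smul_mem t hx)) ht0 ht2
    constructor
    · have h1 : (x0.2.2 + t • x.2.2) *ᵥ p0 = 0 := l1
      rw [Matrix.add_mulVec, k1, zero_add, Matrix.smul_mulVec] at h1
      exact (smul_eq_zero.1 h1).resolve_left ht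
    · have h1 : (x0.1 + t • x.1) *ᵥ p0 ∈ Submodule.span K {p0} := l2
      rw [Matrix.add_mulVec, Matrix.smul_mulVec] at h1
      have h2 := (Submodule.add_mem_iff_right _ k2).1 h1
      exact (Submodule.smul_mem_iff _ ht).1 h2
  refine Or.inr (Or.inr ⟨Submodule.span K {p0}, ?_, ?_, ?_⟩)
  · intro x hx w
    obtain ⟨u, hu⟩ := hP x hx
    rw [hu, Submodule.mem_span_singleton]
    refine ⟨u ⬝ᵥ w, ?_⟩
    ext i
    simp [Matrix.mulVec, vecMulVec_apply, dotProduct]
    ring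
  · intro x hx v hv
    obtain ⟨c, rfl⟩ := Submodule.mem_span_singleton.1 hv
    rw [Matrix.mulVec_smul, (all x hx).1, smul_zero]
  · intro x hx v hv
    obtain ⟨c, rfl⟩ := Submodule.mem_span_singleton.1 hv
    rw [Matrix.mulVec_smul]
    exact Submodule.smul_mem _ _ (all x hx).2

end H321.FANO.TaskA1
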