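import Pool.Agent.Q321.FANO.Stmts

/-! FANO.A2 (author: helper119). -/

set_option autoImplicit false

namespace H321.FANO.TaskA2

open Matrix H321.FANO

variable {K : Type} [Field K]

theorem vz {m n : ℕ} {u : Fin m → K} {w : Fin n → K} {j : Fin n} (hj : w j ≠ 0)
    (h : vecMulVec u w = 0) : u = 0 := by
  funext i
  have := congrFun (congrFun h i) j
  rw [vecMulVec_apply] at this
  simpa [hj] using this

theorem main : H321.FANO.TaskA2 := by
  intro hPol K _ _ N hN w0 hP ⟨x, hx, y, hy, hind⟩ ⟨x0, hx0, hr⟩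
  obtain ⟨pol1, pol2, -, pol4⟩ := hPol K N hN
  obtain ⟨px, hpx⟩ := hP x hx
  obtain ⟨py, hpy⟩ := hP y hy
  obtain ⟨p0, hp0⟩ := hP x0 hx0
  -- `w0 ≠ 0`
  obtain ⟨j, hj⟩ : ∃ j, w0 j ≠ 0 := by
    by_contra hcon
    push Not at hcon
    have h0 : x.2.1 = 0 := by
      rw [hpx]
      ext a b
      rw [vecMulVec_apply, hcon b, mul_zero]
      rfl
    exact hind.ne_zero 0 h0
  have hpind : LinearIndependent K ![px, py] := by
    rw [LinearIndependent.pair_iff]
    intro s t hst
    rw [LinearIndependent.pair_iff] at hind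
    refine hind s t ?_
    rw [hpx, hpy]
    ext a b
    have := congrFun hst a
    simp only [Pi.add_apply, Pi.smul_apply, smul_eq_mul, Pi.zero_apply] at this
    simp only [Matrix.add_apply, Matrix.smul_apply, vecMulVec_apply, smul_eq_mul, Matrix.zero_apply]
    linear_combination w0 b * this
  -- relations for the vectors
  have r1 : ∀ a ∈ N, ∀ b ∈ N, ∀ p q : Fin 3 → K, a.2.1 = vecMulVec p w0 → b.2.1 = vecMulVec q w0 →
      a.2.2 *ᵥ q + b.2.2 *ᵥ p = 0 := by
    intro a ha b hb p q hp hq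
    have h := pol1 a ha b hb
    rw [hp, hq, mul_vecMulVec, mul_vecMulVec, ← add_vecMulVec] at h
    exact vz hj h
  have r4 : ∀ a ∈ N, ∀ b ∈ N, ∀ Z, ((Z, 0, 0) : Tr K) ∈ N → ∀ p q : Fin 3 → K,
      a.2.1 = vecMulVec p w0 → b.2.1 = vecMulVec q w0 →
      a.2.2 *ᵥ (Z *ᵥ q) + b.2.2 *ᵥ (Z *ᵥ p) = 0 := by
    intro a ha b hb Z hZ p q hp hq
    have h := pol4 a ha b hb Z hZ
    rw [hp, hq, mul_vecMulVec, mul_vecMulVec, ← add_vecMulVec] at h
    have h' := vz hj h
    rwa [← mulVec_mulVec, ← mulVec_mulVec] at h'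
  have r2 : ∀ a ∈ N, ∀ Z, ((Z, 0, 0) : Tr K) ∈ N → ∀ p : Fin 3 → K,
      a.2.1 = vecMulVec p w0 → a.2.2 *ᵥ (Z *ᵥ p) = 0 := by
    intro a ha Z hZ p hp
    have h := pol2 a ha Z hZ
    rw [hp, mul_vecMulVec] at h
    have h' := vz hj h
    rwa [← mulVec_mulVec] at h'
  have r0 : ∀ a ∈ N, ∀ p : Fin 3 → K, a.2.1 = vecMulVec p w0 → a.2.2 *ᵥ p = 0 := by
    intro a ha p hp
    have h := hN.c0 a ha
    rw [hp, mul_vecMulVec] at h
    exact vz hj h
  -- the kernel of `Q0`
  have hk1 : Module.finrank K (LinearMap.ker x0.2.2.mulVecLin) = 1 := by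
    have h := LinearMap.finrank_range_add_finrank_ker x0.2.2.mulVecLin
    have h2 : Module.finrank K (LinearMap.range x0.2.2.mulVecLin) = 2 := hr
    rw [h2, Module.finrank_fin_fun] at h
    omega
  have hker : ∀ p : Fin 3 → K, p ≠ 0 → x0.2.2 *ᵥ p = 0 → ∀ v, x0.2.2 *ᵥ v = 0 →
      ∃ c : K, c • p = v := by
    intro p hp hp' v hv
    have hmem : p ∈ LinearMap.ker x0.2.2.mulVecLin := by
      rw [LinearMap.mem_ker, mulVecLin_apply]; exact hp'
    have hmem' : v ∈ LinearMap.ker x0.2.2.mulVecLin := by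
      rw [LinearMap.mem_ker, mulVecLin_apply]; exact hv
    have hne : (⟨p, hmem⟩ : LinearMap.ker x0.2.2.mulVecLin) ≠ 0 := by
      intro h
      exact hp (congrArg Subtype.val h)
    obtain ⟨c, hc⟩ := (finrank_eq_one_iff_of_nonzero' _ hne).1 hk1 ⟨v, hmem'⟩
    exact ⟨c, congrArg Subtype.val hc⟩
  have hpx0 : px ≠ 0 := hpind.ne_zero 0
  have hp00 : p0 ≠ 0 := by
    intro h0
    have e1 := r1 x0 hx0 x hx p0 px hp0 hpx
    have e2 := r1 x0 hx0 y hy p0 py hp0 hpy
    rw [h0, mulVec_zero, add_zero] at e1 e2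
    obtain ⟨c, hc⟩ := hker px hpx0 e1 py e2
    rw [LinearIndependent.pair_iff] at hpind
    have := hpind c (-1) (by rw [hc]; simp)
    simpa using this.2
  have hQ0p0 := r0 x0 hx0 p0 hp0
  -- the key fact
  have key : ∀ Z, ((Z, 0, 0) : Tr K) ∈ N → ∃ c : K, Z *ᵥ p0 = c • p0 ∧
      ∀ a ∈ N, ∀ p : Fin 3 → K, a.2.1 = vecMulVec p w0 → Z *ᵥ p = c • p := by
    intro Z hZ
    obtain ⟨c, hc⟩ := hker p0 hp00 hQ0p0 (Z *ᵥ p0) (r2 x0 hx0 Z hZ p0 hp0)
    refine ⟨c, hc.symm, ?_⟩
    intro a ha p hp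
    have hZ' : ((Z - c • (1 : Matrix (Fin 3) (Fin 3) K), 0, 0) : Tr K) ∈ N := by
      have e : ((Z - c • (1 : Matrix (Fin 3) (Fin 3) K), 0, 0) : Tr K) =
          ((Z, 0, 0) : Tr K) - c • ((1, 0, 0) : Tr K) := by
        refine Prod.ext rfl (Prod.ext ?_ ?_)
        · change (0 : Matrix (Fin 3) (Fin 2) K) = 0 - c • 0
          simp
        · change (0 : Matrix (Fin 2) (Fin 3) K) = 0 - c • 0
          simp
      rw [e]
      exact N.sub_mem hZ (N.smul_mem c hN.one)
    have hZp0 : (Z - c • (1 : Matrix (Fin 3) (Fin 3) K)) *ᵥ p0 = 0 := by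
      rw [sub_mulVec, smul_mulVec, one_mulVec, hc, sub_self]
    have hmain : (Z - c • (1 : Matrix (Fin 3) (Fin 3) K)) *ᵥ p = 0 := by
      have e := r4 x0 hx0 a ha _ hZ' p0 p hp0 hp
      rw [hZp0, mulVec_zero, add_zero] at e
      obtain ⟨μ, hμ⟩ := hker p0 hp00 hQ0p0 _ e
      have e2 := r2 a ha _ hZ' p hp
      rw [← hμ, mulVec_smul] at e2
      have e3 := r1 x0 hx0 a ha p0 p hp0 hp
      rcases smul_eq_zero.1 e2 with h | h
      · rw [← hμ, h, zero_smul]
      · rw [h, add_zero] at e3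
        obtain ⟨ν, hν⟩ := hker p0 hp00 hQ0p0 _ e3
        rw [← hν, mulVec_smul, hZp0, smul_zero]
    rw [sub_mulVec, smul_mulVec, one_mulVec] at hmain
    exact sub_eq_zero.1 hmain
  -- a third vector
  obtain ⟨pz, hpz⟩ := exists_linearIndependent_snoc_of_lt_finrank hpind
    (by rw [Module.finrank_fin_fun]; norm_num)
  have hcard : Fintype.card (Fin 3) = Module.finrank K (Fin 3 → K) := by simp
  let bas := basisOfLinearIndependentOfCardEqFinrank hpz hcard
  have hb0 : bas 0 = px := by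
    simp only [bas, coe_basisOfLinearIndependentOfCardEqFinrank]
    rfl
  have hb1 : bas 1 = py := by
    simp only [bas, coe_basisOfLinearIndependentOfCardEqFinrank]
    rfl
  have hb2 : bas 2 = pz := by
    simp only [bas, coe_basisOfLinearIndependentOfCardEqFinrank]
    rfl
  have hzero : ∀ {n : ℕ} (A : Matrix (Fin n) (Fin 3) K), A *ᵥ px = 0 → A *ᵥ py = 0 → A *ᵥ pz = 0 →
      A = 0 := by
    intro n A h0 h1 h2
    have : A.mulVecLin = 0 := by
      refine bas.ext fun i => ?_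
      fin_cases i
      · change A *ᵥ bas 0 = 0
        rw [hb0, h0]
      · change A *ᵥ bas 1 = 0
        rw [hb1, h1]
      · change A *ᵥ bas 2 = 0
        rw [hb2, h2]
    refine Matrix.toLin'.injective ?_
    rw [Matrix.toLin'_apply', this, map_zero]
  obtain ⟨k, hk⟩ : ∃ k, p0 k ≠ 0 := by
    by_contra hcon
    push Not at hcon
    exact hp00 (funext hcon)
  -- the injection
  let Φ : Tr K →ₗ[K] (Fin 3 → K) × (Fin 2 → K) × (Fin 3 → K) × K :=
    { toFun := fun a => (fun i => a.2.1 i j, a.2.2 *ᵥ pz, a.1 *ᵥ pz, (a.1 *ᵥ p0) k)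
      map_add' := by
        intro a b
        refine Prod.ext ?_ (Prod.ext ?_ (Prod.ext ?_ ?_))
        · rfl
        · exact add_mulVec a.2.2 b.2.2 pz
        · exact add_mulVec a.1 b.1 pz
        · exact congrFun (add_mulVec a.1 b.1 p0) k
      map_smul' := by
        intro c a
        refine Prod.ext ?_ (Prod.ext ?_ (Prod.ext ?_ ?_))
        · rfl
        · exact smul_mulVec c a.2.2 pz
        · exact smul_mulVec c a.1 pz
        · exact congrFun (smul_mulVec c a.1 p0) k }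
  have hinj : Function.Injective (Φ.domRestrict N) := by
    rw [← LinearMap.ker_eq_bot, LinearMap.ker_eq_bot']
    rintro ⟨a, ha⟩ h
    have h1 : (fun i => a.2.1 i j) = 0 := congrArg (fun t => t.1) h
    have h2 : a.2.2 *ᵥ pz = 0 := congrArg (fun t => t.2.1) h
    have h3 : a.1 *ᵥ pz = 0 := congrArg (fun t => t.2.2.1) h
    have h4 : (a.1 *ᵥ p0) k = 0 := congrArg (fun t => t.2.2.2) h
    obtain ⟨p, hp⟩ := hP a ha
    have hp' : p = 0 := by
      funext i
      have := congrFun h1 i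
      simp only [hp, vecMulVec_apply, Pi.zero_apply] at this
      simpa [hj] using this
    have hPz : a.2.1 = 0 := by
      rw [hp, hp']
      ext s t
      rw [vecMulVec_apply]
      simp
    have hQ : a.2.2 = 0 := by
      refine hzero _ ?_ ?_ h2
      · have e := r1 a ha x hx p px hp hpx
        rwa [hp', mulVec_zero, add_zero] at e
      · have e := r1 a ha y hy p py hp hpy
        rwa [hp', mulVec_zero, add_zero] at e
    have haN : ((a.1, 0, 0) : Tr K) ∈ N := by
      have : a = ((a.1, 0, 0) : Tr K) := by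
        refine Prod.ext rfl (Prod.ext ?_ ?_)
        · exact hPz
        · exact hQ
      rw [← this]
      exact ha
    obtain ⟨c, hc, hc'⟩ := key a.1 haN
    have hc0 : c = 0 := by
      rw [hc, Pi.smul_apply, smul_eq_mul] at h4
      rcases mul_eq_zero.1 h4 with h | h
      · exact h
      · exact absurd h hk
    have hM : a.1 = 0 := by
      refine hzero _ ?_ ?_ h3
      · rw [hc' x hx px hpx, hc0, zero_smul]
      · rw [hc' y hy py hpy, hc0, zero_smul]
    refine Subtype.ext ?_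
    exact Prod.ext hM (Prod.ext hPz hQ)
  have hle := LinearMap.finrank_le_finrank_of_injective hinj
  rw [hN.dim] at hle
  simp only [Module.finrank_prod, Module.finrank_fin_fun, Module.finrank_self] at hle
  omega

end H321.FANO.TaskA2
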