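import Pool.Agent.Q321.FANO.Stmts

set_option autoImplicit false

namespace H321.FANO.TaskC1

open Matrix H321.FANO

lemma key {K : Type} [Field K] (u : Fin 2 → K) (q0 v : Fin 3 → K) (w : Fin 2 → K) (hu : u ≠ 0)
    (hw : w ≠ 0) (h : vecMulVec u q0 * vecMulVec v w = 0) : q0 ⬝ᵥ v = 0 := by
  obtain ⟨i, hi⟩ := Function.ne_iff.1 hu
  obtain ⟨j, hj⟩ := Function.ne_iff.1 hw
  have h1 := congrFun (congrFun h i) j
  rw [Matrix.mul_apply] at h1
  simp only [vecMulVec_apply, Matrix.zero_apply] at h1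
  have h2 : ∑ k, u i * q0 k * (v k * w j) = u i * w j * (q0 ⬝ᵥ v) := by
    rw [dotProduct, Finset.mul_sum]
    exact Finset.sum_congr rfl fun k _ => by ring
  rw [h2] at h1
  rcases mul_eq_zero.1 h1 with h3 | h3
  · rcases mul_eq_zero.1 h3 with h4 | h4
    · exact absurd h4 hi
    · exact absurd h4 hj
  · exact h3

lemma vmv {K : Type} [Field K] {m n : ℕ} (u : Fin m → K) (v w : Fin n → K) :
    vecMulVec u v *ᵥ w = (v ⬝ᵥ w) • u := by
  rw [vecMulVec_mulVec]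
  ext i
  simp [mul_comm]

lemma ne_u {K : Type} [Field K] {u : Fin 2 → K} {q0 : Fin 3 → K} (h : vecMulVec u q0 ≠ 0) : u ≠ 0 := by
  rintro rfl
  exact h (by ext i j; simp [vecMulVec_apply])

lemma ne_w {K : Type} [Field K] {w : Fin 2 → K} {p0 : Fin 3 → K} (h : vecMulVec p0 w ≠ 0) : w ≠ 0 := by
  rintro rfl
  exact h (by ext i j; simp [vecMulVec_apply])

lemma ne_p {K : Type} [Field K] {w : Fin 2 → K} {p0 : Fin 3 → K} (h : vecMulVec p0 w ≠ 0) : p0 ≠ 0 := by
  rintro rfl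
  exact h (by ext i j; simp [vecMulVec_apply])

lemma ne_q {K : Type} [Field K] {u : Fin 2 → K} {q0 : Fin 3 → K} (h : vecMulVec u q0 ≠ 0) : q0 ≠ 0 := by
  rintro rfl
  exact h (by ext i j; simp [vecMulVec_apply])

/-- the relations for `x` with `P, Q ≠ 0` -/
lemma rel {K : Type} [Field K] {N : Submodule K (Tr K)} (hN : Blk K N) {p0 q0 : Fin 3 → K}
    (hP : ∀ x ∈ N, ∃ w, x.2.1 = vecMulVec p0 w) (hQ : ∀ x ∈ N, ∃ u, x.2.2 = vecMulVec u q0)
    {x : Tr K} (hx : x ∈ N) (h1 : x.2.1 ≠ 0) (h2 : x.2.2 ≠ 0) :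
    q0 ⬝ᵥ p0 = 0 ∧ q0 ⬝ᵥ (x.1 *ᵥ p0) = 0 ∧ q0 ⬝ᵥ ((x.1 * x.1) *ᵥ p0) = 0 := by
  obtain ⟨w, hw⟩ := hP x hx
  obtain ⟨u, hu⟩ := hQ x hx
  have c0 := hN.c0 x hx
  have c1 := hN.c1 x hx
  have c2 := hN.c2 x hx
  rw [hw] at h1
  rw [hu] at h2
  rw [hw, hu] at c0 c1 c2
  rw [Matrix.mul_assoc, Matrix.mul_vecMulVec] at c1 c2
  exact ⟨key u q0 p0 w (ne_u h2) (ne_w h1) c0, key u q0 _ w (ne_u h2) (ne_w h1) c1,
    key u q0 _ w (ne_u h2) (ne_w h1) c2⟩

lemma sub1 {K : Type} [Field K] {V : Type} [AddCommGroup V] [Module K V] (a b : V) (hb : b ≠ 0) :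
    {s : K | a + s • b = 0}.Subsingleton := by
  intro s hs t ht
  have h1 : a + s • b = a + t • b := by
    rw [show a + s • b = 0 from hs, show a + t • b = 0 from ht]
  have h2 : s • b = t • b := add_left_cancel h1
  have h3 : (s - t) • b = 0 := by rw [sub_smul, h2, sub_self]
  rcases smul_eq_zero.1 h3 with h4 | h4
  · exact sub_eq_zero.1 h4
  · exact absurd h4 hb

theorem main : TaskC1 := by
  intro K _ _ N hN p0 q0 hP hQ ⟨x1, hx1, hx1'⟩ ⟨x2, hx2, hx2'⟩
  -- an element with both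
  obtain ⟨x0, hx0, h01, h02⟩ : ∃ x0 ∈ N, x0.2.1 ≠ 0 ∧ x0.2.2 ≠ 0 := by
    by_cases ha : x1.2.2 = 0
    · by_cases hb : x2.2.1 = 0
      · refine ⟨x1 + x2, N.add_mem hx1 hx2, ?_, ?_⟩
        · show x1.2.1 + x2.2.1 ≠ 0
          rw [hb, add_zero]; exact hx1'
        · show x1.2.2 + x2.2.2 ≠ 0
          rw [ha, zero_add]; exact hx2'
      · exact ⟨x2, hx2, hb, hx2'⟩
    · exact ⟨x1, hx1, hx1', ha⟩
  obtain ⟨r0, r1, r2⟩ := rel hN hP hQ hx0 h01 h02
  have hp0 : p0 ≠ 0 := by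
    obtain ⟨w, hw⟩ := hP x0 hx0
    rw [hw] at h01
    exact ne_p h01
  have hq0 : q0 ≠ 0 := by
    obtain ⟨u, hu⟩ := hQ x0 hx0
    rw [hu] at h02
    exact ne_q h02
  -- the relations for all x
  have hall : ∀ x ∈ N, q0 ⬝ᵥ (x.1 *ᵥ p0) = 0 ∧ q0 ⬝ᵥ ((x.1 * x.1) *ᵥ p0) = 0 := by
    intro x hx
    have hfin : ({s : K | x.2.1 + s • x0.2.1 = 0} ∪ {s : K | x.2.2 + s • x0.2.2 = 0}).Finite :=
      (sub1 _ _ h01).finite.union (sub1 _ _ h02).finite
    obtain ⟨s, hs⟩ := hfin.infinite_compl.nonempty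
    obtain ⟨t, ht⟩ := (hfin.union (Set.finite_singleton s)).infinite_compl.nonempty
    have hst : t ≠ s := fun h => ht (Or.inr h)
    have hg : ∀ s : K, s ∉ ({s : K | x.2.1 + s • x0.2.1 = 0} ∪ {s : K | x.2.2 + s • x0.2.2 = 0}) →
        q0 ⬝ᵥ ((x.1 + s • x0.1) *ᵥ p0) = 0 ∧
          q0 ⬝ᵥ (((x.1 + s • x0.1) * (x.1 + s • x0.1)) *ᵥ p0) = 0 := by
      intro s hs
      exact (rel hN hP hQ (N.add_mem hx (N.smul_mem s hx0)) (fun h => hs (Or.inl h))
        (fun h => hs (Or.inr h))).2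
    have e1 : ∀ s : K, q0 ⬝ᵥ ((x.1 + s • x0.1) *ᵥ p0) = q0 ⬝ᵥ (x.1 *ᵥ p0) := by
      intro s
      rw [Matrix.add_mulVec, Matrix.smul_mulVec, dotProduct_add, dotProduct_smul, r1, smul_zero,
        add_zero]
    have e2 : ∀ s : K, q0 ⬝ᵥ (((x.1 + s • x0.1) * (x.1 + s • x0.1)) *ᵥ p0) =
        q0 ⬝ᵥ ((x.1 * x.1) *ᵥ p0) + s * (q0 ⬝ᵥ ((x.1 * x0.1 + x0.1 * x.1) *ᵥ p0)) := by
      intro s
      have : (x.1 + s • x0.1) * (x.1 + s • x0.1) =
          x.1 * x.1 + s • (x.1 * x0.1 + x0.1 * x.1) + (s * s) • (x0.1 * x0.1) := by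
        rw [Matrix.add_mul, Matrix.mul_add, Matrix.mul_add, Matrix.mul_smul, Matrix.smul_mul,
          Matrix.smul_mul, Matrix.mul_smul, smul_smul, smul_add]
        abel
      rw [this, Matrix.add_mulVec, Matrix.add_mulVec, Matrix.smul_mulVec, Matrix.smul_mulVec,
        dotProduct_add, dotProduct_add, dotProduct_smul, dotProduct_smul, r2, smul_zero, add_zero,
        smul_eq_mul]
    have g1 := hg s hs
    have g2 := hg t (fun h => ht (Or.inl h))
    rw [e1, e2] at g1 g2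
    refine ⟨g1.1, ?_⟩
    have h3 : (t - s) * (q0 ⬝ᵥ ((x.1 * x0.1 + x0.1 * x.1) *ᵥ p0)) = 0 := by
      linear_combination g2.2 - g1.2
    rcases mul_eq_zero.1 h3 with h4 | h4
    · exact absurd (sub_eq_zero.1 h4) hst
    · have := g1.2
      rw [h4, mul_zero, add_zero] at this
      exact this
  -- the invariant subspace
  by_cases hcase : ∀ x ∈ N, x.1 *ᵥ p0 ∈ Submodule.span K {p0}
  · refine Or.inr (Or.inr ⟨Submodule.span K {p0}, ?_, ?_, ?_⟩)
    · intro x hx w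
      obtain ⟨w', hw'⟩ := hP x hx
      rw [hw', vmv]
      exact Submodule.smul_mem _ _ (Submodule.mem_span_singleton_self p0)
    · intro x hx v hv
      obtain ⟨c, rfl⟩ := Submodule.mem_span_singleton.1 hv
      obtain ⟨u, hu⟩ := hQ x hx
      rw [hu, vmv, dotProduct_smul, r0]
      simp
    · intro x hx v hv
      obtain ⟨c, rfl⟩ := Submodule.mem_span_singleton.1 hv
      rw [Matrix.mulVec_smul]
      exact Submodule.smul_mem _ _ (hcase x hx)
  · push Not at hcase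
    obtain ⟨y, hy, hy'⟩ := hcase
    let f : (Fin 3 → K) →ₗ[K] K :=
      { toFun := fun v => q0 ⬝ᵥ v
        map_add' := fun a b => dotProduct_add _ _ _
        map_smul' := fun c a => by rw [dotProduct_smul]; rfl }
    have hfap : ∀ v, f v = q0 ⬝ᵥ v := fun v => rfl
    have hker : Module.finrank K (LinearMap.ker f) ≤ 2 := by
      have h1 := LinearMap.finrank_range_add_finrank_ker f
      rw [Module.finrank_fin_fun] at h1
      have h2 : LinearMap.range f ≠ ⊥ := by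
        intro h
        rw [LinearMap.range_eq_bot] at h
        apply hq0
        funext i
        have h3 : f (Pi.single i 1) = 0 := by rw [h]; rfl
        rw [hfap, dotProduct_single, mul_one] at h3
        exact h3
      have h4 : 0 < Module.finrank K (LinearMap.range f) :=
        Nat.pos_of_ne_zero fun h => h2 (Submodule.finrank_eq_zero.1 h)
      omega
    have hle : Submodule.span K {p0} ⊔ Submodule.span K {y.1 *ᵥ p0} ≤ LinearMap.ker f := by
      rw [sup_le_iff, Submodule.span_singleton_le_iff_mem, Submodule.span_singleton_le_iff_mem]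
      exact ⟨r0, (hall y hy).1⟩
    have hlt : Submodule.span K {p0} < Submodule.span K {p0} ⊔ Submodule.span K {y.1 *ᵥ p0} := by
      refine lt_of_le_of_ne le_sup_left fun h => hy' ?_
      rw [h]
      exact (le_sup_right : _ ≤ Submodule.span K {p0} ⊔ Submodule.span K {y.1 *ᵥ p0})
        (Submodule.mem_span_singleton_self _)
    have hrk := Submodule.finrank_lt_finrank_of_lt hlt
    rw [finrank_span_singleton hp0] at hrk
    have heq : Submodule.span K {p0} ⊔ Submodule.span K {y.1 *ᵥ p0} = LinearMap.ker f :=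
      Submodule.eq_of_le_of_finrank_le hle (by omega)
    have hdec : ∀ v, q0 ⬝ᵥ v = 0 → ∃ a b : K, v = a • p0 + b • (y.1 *ᵥ p0) := by
      intro v hv
      have : v ∈ LinearMap.ker f := hv
      rw [← heq] at this
      obtain ⟨s, hs, t, ht, rfl⟩ := Submodule.mem_sup.1 this
      obtain ⟨a, rfl⟩ := Submodule.mem_span_singleton.1 hs
      obtain ⟨b, rfl⟩ := Submodule.mem_span_singleton.1 ht
      exact ⟨a, b, rfl⟩
    -- M e2 in ker q0
    have hyy : q0 ⬝ᵥ (y.1 *ᵥ (y.1 *ᵥ p0)) = 0 := by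
      rw [Matrix.mulVec_mulVec]
      exact (hall y hy).2
    have hxe : ∀ x ∈ N, q0 ⬝ᵥ (x.1 *ᵥ (y.1 *ᵥ p0)) = 0 := by
      intro x hx
      have h1 := (hall (x + y) (N.add_mem hx hy)).2
      have h2 : (x + y).1 * (x + y).1 = x.1 * x.1 + x.1 * y.1 + y.1 * x.1 + y.1 * y.1 := by
        show (x.1 + y.1) * (x.1 + y.1) = _
        rw [Matrix.add_mul, Matrix.mul_add, Matrix.mul_add]
        abel
      rw [h2, Matrix.add_mulVec, Matrix.add_mulVec, Matrix.add_mulVec, dotProduct_add,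
        dotProduct_add, dotProduct_add, (hall x hx).2, (hall y hy).2] at h1
      obtain ⟨a, b, hab⟩ := hdec _ (hall x hx).1
      have h3 : q0 ⬝ᵥ ((y.1 * x.1) *ᵥ p0) = 0 := by
        rw [← Matrix.mulVec_mulVec, hab, Matrix.mulVec_add, Matrix.mulVec_smul, Matrix.mulVec_smul,
          dotProduct_add, dotProduct_smul, dotProduct_smul, hyy, (hall y hy).1]
        simp
      rw [h3, ← Matrix.mulVec_mulVec] at h1
      simpa using h1
    refine Or.inr (Or.inr ⟨LinearMap.ker f, ?_, ?_, ?_⟩)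
    · intro x hx w
      obtain ⟨w', hw'⟩ := hP x hx
      rw [hw', vmv]
      exact (LinearMap.ker f).smul_mem _ r0
    · intro x hx v hv
      obtain ⟨u, hu⟩ := hQ x hx
      have hv' : q0 ⬝ᵥ v = 0 := hv
      rw [hu, vmv, hv']
      simp
    · intro x hx v hv
      obtain ⟨a, b, rfl⟩ := hdec v hv
      show q0 ⬝ᵥ (x.1 *ᵥ (a • p0 + b • (y.1 *ᵥ p0))) = 0
      rw [Matrix.mulVec_add, Matrix.mulVec_smul, Matrix.mulVec_smul, dotProduct_add,
        dotProduct_smul, dotProduct_smul, hxe x hx, (hall x hx).1]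
      simp

end H321.FANO.TaskC1
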