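import Pool.Agent.Q321.FANO.Stmts

set_option autoImplicit false

namespace H321.FANO.TaskC2

open Matrix H321.FANO

section

variable {K : Type} [Field K]

lemma key (u : Fin 2 → K) (q p : Fin 3 → K) (w : Fin 2 → K) (Z : Matrix (Fin 3) (Fin 3) K) :
    vecMulVec u q * Z * vecMulVec p w = (q ⬝ᵥ (Z *ᵥ p)) • vecMulVec u w := by
  ext i j
  simp only [Matrix.mul_apply, vecMulVec_apply, Fin.sum_univ_three, dotProduct, mulVec,
    Matrix.smul_apply, smul_eq_mul]
  ring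

lemma key1 (u : Fin 2 → K) (q p : Fin 3 → K) (w : Fin 2 → K) :
    vecMulVec u q * vecMulVec p w = (q ⬝ᵥ p) • vecMulVec u w := by
  ext i j
  simp only [Matrix.mul_apply, vecMulVec_apply, Fin.sum_univ_three, dotProduct,
    Matrix.smul_apply, smul_eq_mul]
  ring

lemma coef_zero {u : Fin 2 → K} {w : Fin 2 → K} (hu : u ≠ 0) (hw : w ≠ 0) {c : K}
    (h : c • vecMulVec u w = 0) : c = 0 := by
  obtain ⟨i, hi⟩ := Function.ne_iff.1 hu
  obtain ⟨j, hj⟩ := Function.ne_iff.1 hw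
  have h1 := congrFun (congrFun h i) j
  simp only [Matrix.smul_apply, vecMulVec_apply, smul_eq_mul, Matrix.zero_apply] at h1
  rcases mul_eq_zero.1 h1 with h2 | h2
  · exact h2
  · rcases mul_eq_zero.1 h2 with h3 | h3
    · exact absurd h3 hi
    · exact absurd h3 hj

lemma vmv_mulVec {m n : ℕ} (a : Fin m → K) (g v : Fin n → K) :
    vecMulVec a g *ᵥ v = (g ⬝ᵥ v) • a := by
  ext i
  simp only [mulVec, dotProduct, vecMulVec_apply, Pi.smul_apply, smul_eq_mul, Finset.sum_mul]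
  exact Finset.sum_congr rfl fun j _ => by ring

/-- `P ↦ w` -/
def wl (p0 : Fin 3 → K) (i0 : Fin 3) : Tr K →ₗ[K] (Fin 2 → K) where
  toFun x := fun j => (p0 i0)⁻¹ * x.2.1 i0 j
  map_add' x y := by ext j; simp [mul_add]
  map_smul' c x := by ext j; simp; ring

/-- `Q ↦ q` -/
def ql (u0 : Fin 2 → K) (j0 : Fin 2) : Tr K →ₗ[K] (Fin 3 → K) where
  toFun x := fun i => (u0 j0)⁻¹ * x.2.2 j0 i
  map_add' x y := by ext j; simp [mul_add]
  map_smul' c x := by ext j; simp; ring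

lemma wl_spec {p0 : Fin 3 → K} {i0 : Fin 3} (h0 : p0 i0 ≠ 0) {x : Tr K}
    (h : ∃ w, x.2.1 = vecMulVec p0 w) : x.2.1 = vecMulVec p0 (wl p0 i0 x) := by
  obtain ⟨w, hw⟩ := h
  have : wl p0 i0 x = w := by
    ext j
    change (p0 i0)⁻¹ * x.2.1 i0 j = w j
    rw [hw, vecMulVec_apply]
    field_simp
  rw [this]; exact hw

lemma ql_spec {u0 : Fin 2 → K} {j0 : Fin 2} (h0 : u0 j0 ≠ 0) {x : Tr K}
    (h : ∃ q, x.2.2 = vecMulVec u0 q) : x.2.2 = vecMulVec u0 (ql u0 j0 x) := by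
  obtain ⟨w, hw⟩ := h
  have : ql u0 j0 x = w := by
    ext j
    change (u0 j0)⁻¹ * x.2.2 j0 j = w j
    rw [hw, vecMulVec_apply]
    field_simp
  rw [this]; exact hw

/-- evaluation at `p0` -/
def ev (p0 : Fin 3 → K) : Matrix (Fin 3) (Fin 3) K →ₗ[K] (Fin 3 → K) where
  toFun Z := Z *ᵥ p0
  map_add' x y := by rw [add_mulVec]
  map_smul' c x := by rw [smul_mulVec]; rfl

lemma ev_surj {p0 : Fin 3 → K} {i0 : Fin 3} (h0 : p0 i0 ≠ 0) : Function.Surjective (ev p0) := by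
  intro a
  refine ⟨vecMulVec a (Pi.single i0 (p0 i0)⁻¹), ?_⟩
  change vecMulVec a (Pi.single i0 (p0 i0)⁻¹) *ᵥ p0 = a
  rw [vmv_mulVec, single_dotProduct, inv_mul_cancel₀ h0, one_smul]

/-- the matrices preserving the line of `p0` -/
def Sp (p0 : Fin 3 → K) : Submodule K (Matrix (Fin 3) (Fin 3) K) :=
  LinearMap.ker ((Submodule.mkQ (Submodule.span K {p0})) ∘ₗ ev p0)

lemma mem_Sp {p0 : Fin 3 → K} {Z : Matrix (Fin 3) (Fin 3) K} :
    Z ∈ Sp p0 ↔ Z *ᵥ p0 ∈ Submodule.span K {p0} := by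
  rw [Sp, LinearMap.mem_ker, LinearMap.comp_apply, Submodule.mkQ_apply,
    Submodule.Quotient.mk_eq_zero]
  rfl

lemma finrank_Sp {p0 : Fin 3 → K} {i0 : Fin 3} (h0 : p0 i0 ≠ 0) :
    Module.finrank K (Sp p0) = 7 := by
  have hp : p0 ≠ 0 := fun h => h0 (by rw [h]; rfl)
  have h1 := LinearMap.finrank_range_add_finrank_ker
    ((Submodule.mkQ (Submodule.span K {p0})) ∘ₗ ev p0)
  have h2 : LinearMap.range ((Submodule.mkQ (Submodule.span K {p0})) ∘ₗ ev p0) = ⊤ := by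
    rw [LinearMap.range_eq_top]
    exact (Submodule.mkQ_surjective _).comp (ev_surj h0)
  rw [h2, finrank_top] at h1
  have h3 := Submodule.finrank_quotient_add_finrank (Submodule.span K {p0})
  rw [finrank_span_singleton hp, Module.finrank_fin_fun] at h3
  have h4 : Module.finrank K (Matrix (Fin 3) (Fin 3) K) = 9 := by
    rw [Module.finrank_matrix]; simp
  rw [h4] at h1
  change _ + Module.finrank K (Sp p0) = 9 at h1
  omega

/-- `q ↦ q ⬝ᵥ p0` -/
def dl (p0 : Fin 3 → K) : (Fin 3 → K) →ₗ[K] K where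
  toFun q := q ⬝ᵥ p0
  map_add' x y := add_dotProduct _ _ _
  map_smul' c x := by rw [smul_dotProduct]; rfl

lemma finrank_dl {p0 : Fin 3 → K} {i0 : Fin 3} (h0 : p0 i0 ≠ 0) :
    Module.finrank K (LinearMap.ker (dl p0)) = 2 := by
  have h1 := LinearMap.finrank_range_add_finrank_ker (dl p0)
  have h2 : LinearMap.range (dl p0) = ⊤ := by
    rw [LinearMap.range_eq_top]
    intro c
    refine ⟨Pi.single i0 (c * (p0 i0)⁻¹), ?_⟩
    change Pi.single i0 (c * (p0 i0)⁻¹) ⬝ᵥ p0 = c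
    rw [single_dotProduct, mul_assoc, inv_mul_cancel₀ h0, mul_one]
  rw [h2, finrank_top, Module.finrank_self, Module.finrank_fin_fun] at h1
  omega

/-- `(w, q) ↦ (p0 ⊗ w, u0 ⊗ q)` -/
def th (p0 : Fin 3 → K) (u0 : Fin 2 → K) : ((Fin 2 → K) × LinearMap.ker (dl p0)) →ₗ[K]
    (Matrix (Fin 3) (Fin 2) K × Matrix (Fin 2) (Fin 3) K) where
  toFun z := (vecMulVec p0 z.1, vecMulVec u0 (z.2 : Fin 3 → K))
  map_add' x y := by
    ext <;> simp [vecMulVec_apply, mul_add]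
  map_smul' c x := by
    ext <;> simp [vecMulVec_apply] <;> ring

end

theorem main : TaskC2 := by
  intro hPol K _ _ N hN p0 u0 hP hQ hPne hQ2
  obtain ⟨pol1, pol2, pol3, pol4⟩ := hPol K N hN
  obtain ⟨x0, hx0, hx0P⟩ := hPne
  obtain ⟨x1, hx1, y1, hy1, hli⟩ := hQ2
  have hp0 : p0 ≠ 0 := by
    rintro rfl
    obtain ⟨w, hw⟩ := hP x0 hx0
    exact hx0P (by rw [hw]; ext; simp [vecMulVec_apply])
  have hx1Q : x1.2.2 ≠ 0 := hli.ne_zero 0
  have hu0 : u0 ≠ 0 := by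
    rintro rfl
    obtain ⟨w, hw⟩ := hQ x1 hx1
    exact hx1Q (by rw [hw]; ext; simp [vecMulVec_apply])
  obtain ⟨i0, hi0⟩ := Function.ne_iff.1 hp0
  obtain ⟨j0, hj0⟩ := Function.ne_iff.1 hu0
  have hi0' : p0 i0 ≠ 0 := hi0
  have hj0' : u0 j0 ≠ 0 := hj0
  have hw : ∀ x ∈ N, x.2.1 = vecMulVec p0 (wl p0 i0 x) := fun x hx => wl_spec hi0' (hP x hx)
  have hq : ∀ x ∈ N, x.2.2 = vecMulVec u0 (ql u0 j0 x) := fun x hx => ql_spec hj0' (hQ x hx)
  have hwx0 : wl p0 i0 x0 ≠ 0 := by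
    intro h
    apply hx0P
    rw [hw x0 hx0, h]
    ext; simp [vecMulVec_apply]
  have hqx1 : ql u0 j0 x1 ≠ 0 := by
    intro h
    apply hx1Q
    rw [hq x1 hx1, h]
    ext; simp [vecMulVec_apply]
  -- B
  have hB0 : ql u0 j0 x0 ⬝ᵥ p0 = 0 := by
    have h := hN.c0 x0 hx0
    rw [hw x0 hx0, hq x0 hx0, key1] at h
    exact coef_zero hu0 hwx0 h
  have hB : ∀ x ∈ N, ql u0 j0 x ⬝ᵥ p0 = 0 := by
    intro x hx
    have h := pol1 x hx x0 hx0
    rw [hw x0 hx0, hq x0 hx0, hw x hx, hq x hx, key1, key1, hB0, zero_smul, add_zero] at h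
    exact coef_zero hu0 hwx0 h
  -- C
  have hC : ∀ Z, ((Z, 0, 0) : Tr K) ∈ N → ∀ x ∈ N, ql u0 j0 x ⬝ᵥ (Z *ᵥ p0) = 0 := by
    intro Z hZ x hx
    have h0 := pol2 x0 hx0 Z hZ
    rw [hw x0 hx0, hq x0 hx0, key] at h0
    have h0' := coef_zero hu0 hwx0 h0
    have h := pol4 x hx x0 hx0 Z hZ
    rw [hw x0 hx0, hq x0 hx0, hw x hx, hq x hx, key, key, h0', zero_smul, add_zero] at h
    exact coef_zero hu0 hwx0 h
  -- E
  set q1 := ql u0 j0 x1 with hq1
  set q2 := ql u0 j0 y1 with hq2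
  have hqli : LinearIndependent K ![q1, q2] := by
    let Lm : (Fin 3 → K) →ₗ[K] Matrix (Fin 2) (Fin 3) K :=
      { toFun := fun q => vecMulVec u0 q
        map_add' := fun a b => by ext; simp [vecMulVec_apply, mul_add]
        map_smul' := fun c a => by ext; simp [vecMulVec_apply]; ring }
    apply LinearIndependent.of_comp Lm
    convert hli using 1
    funext i
    fin_cases i
    · exact (hq x1 hx1).symm
    · exact (hq y1 hy1).symm
  have hE : ∀ v : Fin 3 → K, q1 ⬝ᵥ v = 0 → q2 ⬝ᵥ v = 0 → v ∈ Submodule.span K {p0} := by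
    intro v h1 h2
    have hr : (Matrix.of ![q1, q2]).rank = 2 := by
      have : LinearIndependent K (Matrix.of ![q1, q2]).row := hqli
      rw [LinearIndependent.rank_matrix this]; simp
    have hk := LinearMap.finrank_range_add_finrank_ker (Matrix.of ![q1, q2]).mulVecLin
    rw [Module.finrank_fin_fun] at hk
    change (Matrix.of ![q1, q2]).rank + _ = 3 at hk
    have hk1 : Module.finrank K (LinearMap.ker (Matrix.of ![q1, q2]).mulVecLin) = 1 := by omega
    have hmem : ∀ z : Fin 3 → K, q1 ⬝ᵥ z = 0 → q2 ⬝ᵥ z = 0 →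
        z ∈ LinearMap.ker (Matrix.of ![q1, q2]).mulVecLin := by
      intro z hz1 hz2
      rw [LinearMap.mem_ker, Matrix.mulVecLin_apply]
      funext i
      fin_cases i
      · exact hz1
      · exact hz2
    have hpm := hmem p0 (hB x1 hx1) (hB y1 hy1)
    have hvm := hmem v h1 h2
    have hne : (⟨p0, hpm⟩ : LinearMap.ker (Matrix.of ![q1, q2]).mulVecLin) ≠ 0 := by
      intro h
      exact hp0 (congrArg Subtype.val h)
    obtain ⟨c, hc⟩ := (finrank_eq_one_iff_of_nonzero' _ hne).1 hk1 ⟨v, hvm⟩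
    rw [Submodule.mem_span_singleton]
    exact ⟨c, congrArg Subtype.val hc⟩
  -- F
  let ι : Matrix (Fin 3) (Fin 3) K →ₗ[K] Tr K := LinearMap.inl K _ _
  let N0 : Submodule K (Matrix (Fin 3) (Fin 3) K) := N.comap ι
  have hN0 : ∀ Z, Z ∈ N0 ↔ ((Z, 0, 0) : Tr K) ∈ N := fun Z => Iff.rfl
  have hF : 7 ≤ Module.finrank K N0 := by
    let π : N →ₗ[K] (Matrix (Fin 3) (Fin 2) K × Matrix (Fin 2) (Fin 3) K) :=
      (LinearMap.snd K _ _) ∘ₗ N.subtype
    have h1 := LinearMap.finrank_range_add_finrank_ker π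
    rw [hN.dim] at h1
    have h2 : LinearMap.range π ≤ LinearMap.range (th p0 u0) := by
      rintro _ ⟨x, rfl⟩
      refine ⟨(wl p0 i0 x, ⟨ql u0 j0 x, hB x x.2⟩), ?_⟩
      change (vecMulVec p0 (wl p0 i0 x), vecMulVec u0 (ql u0 j0 x)) = ((x : Tr K).2.1, (x : Tr K).2.2)
      rw [← hw x x.2, ← hq x x.2]
    have h3 : Module.finrank K (LinearMap.range π) ≤ 4 := by
      refine (Submodule.finrank_mono h2).trans ((LinearMap.finrank_range_le _).trans ?_)
      rw [Module.finrank_prod, finrank_dl hi0', Module.finrank_fin_fun]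
    have h4 : Module.finrank K (LinearMap.ker π) ≤ Module.finrank K N0 := by
      let j : LinearMap.ker π →ₗ[K] N0 :=
        { toFun := fun x => ⟨(x : N).1.1, by
            have hx : ((x : N).1.2 : Matrix (Fin 3) (Fin 2) K × Matrix (Fin 2) (Fin 3) K) = 0 := x.2
            rw [hN0]
            have hx2 := (x : N).2
            have e : ((x : N) : Tr K) = ((x : N).1.1, 0, 0) := Prod.ext rfl hx
            rw [e] at hx2
            exact hx2⟩
          map_add' := fun x y => rfl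
          map_smul' := fun c x => rfl }
      apply LinearMap.finrank_le_finrank_of_injective (f := j)
      intro x y hxy
      have h5 : (x : N).1.1 = (y : N).1.1 := congrArg Subtype.val hxy
      have hx : ((x : N).1.2 : Matrix (Fin 3) (Fin 2) K × Matrix (Fin 2) (Fin 3) K) = 0 := x.2
      have hy : ((y : N).1.2 : Matrix (Fin 3) (Fin 2) K × Matrix (Fin 2) (Fin 3) K) = 0 := y.2
      apply Subtype.ext
      apply Subtype.ext
      exact Prod.ext h5 (hx.trans hy.symm)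
    omega
  -- G
  have hG : N0 = Sp p0 := by
    apply Submodule.eq_of_le_of_finrank_le
    · intro Z hZ
      rw [mem_Sp]
      exact hE _ (hC Z hZ x1 hx1) (hC Z hZ y1 hy1)
    · rw [finrank_Sp hi0']; exact hF
  -- H
  have hH : ∀ x ∈ N, wl p0 i0 x ≠ 0 → ql u0 j0 x ≠ 0 → x.1 *ᵥ p0 ∈ Submodule.span K {p0} := by
    intro x hx hwx hqx
    by_contra hv
    obtain ⟨i, hi⟩ := Function.ne_iff.1 hqx
    have hg : ∃ g : Fin 3 → K, g ⬝ᵥ p0 = 0 ∧ g ⬝ᵥ (x.1 *ᵥ p0) ≠ 0 := by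
      by_contra hcon
      push Not at hcon
      exact hv (hE _ (hcon q1 (hB x1 hx1)) (hcon q2 (hB y1 hy1)))
    obtain ⟨g, hg0, hg1⟩ := hg
    set Z := vecMulVec (Pi.single i (1 : K) : Fin 3 → K) g with hZ
    have hZp : Z *ᵥ p0 = 0 := by rw [hZ, vmv_mulVec, hg0, zero_smul]
    have hZN : ((Z, 0, 0) : Tr K) ∈ N := by
      rw [← hN0, hG, mem_Sp, hZp]; exact Submodule.zero_mem _
    have h3 := pol3 x hx Z hZN
    rw [hw x hx, hq x hx, key] at h3
    have h4 := coef_zero hu0 hwx h3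
    rw [add_mulVec, ← mulVec_mulVec, ← mulVec_mulVec, hZp, mulVec_zero, zero_add, hZ,
      vmv_mulVec, dotProduct_smul, dotProduct_single, smul_eq_mul, mul_one] at h4
    rcases mul_eq_zero.1 h4 with h5 | h5
    · exact hg1 h5
    · exact hi h5
  -- I
  obtain ⟨z0, hz0, hwz, hqz⟩ : ∃ z ∈ N, wl p0 i0 z ≠ 0 ∧ ql u0 j0 z ≠ 0 := by
    by_cases h1 : ql u0 j0 x0 = 0
    · by_cases h2 : wl p0 i0 x1 = 0
      · refine ⟨x0 + x1, N.add_mem hx0 hx1, ?_, ?_⟩
        · rw [map_add, h2, add_zero]; exact hwx0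
        · rw [map_add, h1, zero_add]; exact hqx1
      · exact ⟨x1, hx1, h2, hqx1⟩
    · exact ⟨x0, hx0, hwx0, h1⟩
  have hI : ∀ x ∈ N, x.1 *ᵥ p0 ∈ Submodule.span K {p0} := by
    intro x hx
    have sub : ∀ {n : ℕ} (a b : Fin n → K), a ≠ 0 → Set.Subsingleton {s : K | a + s • b = 0} := by
      intro n a b ha s hs t ht
      by_contra hst
      have h1 : (s - t) • b = 0 := by
        have e : (s - t) • b = (a + s • b) - (a + t • b) := by rw [sub_smul]; abel
        rw [e]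
        rw [Set.mem_setOf_eq] at hs ht
        rw [hs, ht, sub_zero]
      have hb : b = 0 := (smul_eq_zero.1 h1).resolve_left (sub_ne_zero.2 hst)
      rw [Set.mem_setOf_eq, hb, smul_zero, add_zero] at hs
      exact ha hs
    have hfin : ({0} ∪ ({s : K | wl p0 i0 z0 + s • wl p0 i0 x = 0} ∪
        {s : K | ql u0 j0 z0 + s • ql u0 j0 x = 0}) : Set K).Finite :=
      (Set.finite_singleton 0).union ((sub _ _ hwz).finite.union (sub _ _ hqz).finite)
    obtain ⟨s, hs⟩ := hfin.exists_notMem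
    simp only [Set.mem_union, Set.mem_singleton_iff, Set.mem_setOf_eq, not_or] at hs
    obtain ⟨hs0, hs1, hs2⟩ := hs
    have h1 := hH (z0 + s • x) (N.add_mem hz0 (N.smul_mem s hx))
      (by rw [map_add, map_smul]; exact hs1) (by rw [map_add, map_smul]; exact hs2)
    have h2 := hH z0 hz0 hwz hqz
    have e : (z0 + s • x).1 *ᵥ p0 = z0.1 *ᵥ p0 + s • (x.1 *ᵥ p0) := by
      change (z0.1 + s • x.1) *ᵥ p0 = _
      rw [add_mulVec, smul_mulVec]
    rw [e] at h1
    have h3 := Submodule.sub_mem _ h1 h2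
    rw [add_sub_cancel_left] at h3
    exact (Submodule.smul_mem_iff _ hs0).1 h3
  refine Or.inr (Or.inr ⟨Submodule.span K {p0}, ?_, ?_, ?_⟩)
  · intro x hx w
    rw [hw x hx, vmv_mulVec]
    exact Submodule.smul_mem _ _ (Submodule.mem_span_singleton_self p0)
  · intro x hx v hv
    obtain ⟨c, rfl⟩ := Submodule.mem_span_singleton.1 hv
    rw [hq x hx, vmv_mulVec, dotProduct_smul, hB x hx, smul_zero, zero_smul]
  · intro x hx v hv
    obtain ⟨c, rfl⟩ := Submodule.mem_span_singleton.1 hv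
    rw [mulVec_smul]
    exact Submodule.smul_mem _ _ (hI x hx)

end H321.FANO.TaskC2
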