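import Pool.Agent.Q321.FANO.Stmts

set_option autoImplicit false

namespace H321.FANO.TaskCase

open Matrix H321.FANO

variable {K : Type} [Field K]

private theorem redP (N : Submodule K (Tr K)) (w0 : Fin 2 → K)
    (hw : ∀ x ∈ N, ∃ p, x.2.1 = vecMulVec p w0) (h1 : ∃ x ∈ N, x.2.1 ≠ 0)
    (hno : ¬ ∃ x ∈ N, ∃ y ∈ N, LinearIndependent K ![x.2.1, y.2.1]) :
    ∃ p0 : Fin 3 → K, ∀ x ∈ N, ∃ w, x.2.1 = vecMulVec p0 w := by
  obtain ⟨x1, hx1, hne⟩ := h1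
  obtain ⟨p1, hp1⟩ := hw x1 hx1
  refine ⟨p1, fun x hx => ?_⟩
  have h2 : ¬ LinearIndependent K ![x1.2.1, x.2.1] := fun h => hno ⟨x1, hx1, x, hx, h⟩
  rw [LinearIndependent.pair_iff' hne] at h2
  push Not at h2
  obtain ⟨a, ha⟩ := h2
  refine ⟨a • w0, ?_⟩
  rw [← ha, hp1]
  ext i j
  simp only [vecMulVec_apply, Matrix.smul_apply, Pi.smul_apply, smul_eq_mul]
  ring

private theorem redQ (N : Submodule K (Tr K)) (u0 : Fin 2 → K)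
    (hw : ∀ x ∈ N, ∃ q, x.2.2 = vecMulVec u0 q) (h1 : ∃ x ∈ N, x.2.2 ≠ 0)
    (hno : ¬ ∃ x ∈ N, ∃ y ∈ N, LinearIndependent K ![x.2.2, y.2.2]) :
    ∃ q0 : Fin 3 → K, ∀ x ∈ N, ∃ u, x.2.2 = vecMulVec u q0 := by
  obtain ⟨x1, hx1, hne⟩ := h1
  obtain ⟨q1, hq1⟩ := hw x1 hx1
  refine ⟨q1, fun x hx => ?_⟩
  have h2 : ¬ LinearIndependent K ![x1.2.2, x.2.2] := fun h => hno ⟨x1, hx1, x, hx, h⟩
  rw [LinearIndependent.pair_iff' hne] at h2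
  push Not at h2
  obtain ⟨a, ha⟩ := h2
  refine ⟨a • u0, ?_⟩
  rw [← ha, hq1]
  ext i j
  simp only [vecMulVec_apply, Matrix.smul_apply, Pi.smul_apply, smul_eq_mul]
  ring

private theorem rankP (hR : TaskRankOne) (N : Submodule K (Tr K)) (hr : ∀ x ∈ N, x.2.1.rank ≤ 1) :
    (∃ p0 : Fin 3 → K, ∀ x ∈ N, ∃ w, x.2.1 = vecMulVec p0 w) ∨
    (∃ w0 : Fin 2 → K, ∀ x ∈ N, ∃ p, x.2.1 = vecMulVec p w0) := by
  have := hR K 3 2 (N.map ((LinearMap.fst K (Matrix (Fin 3) (Fin 2) K) (Matrix (Fin 2) (Fin 3) K)).comp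
    (LinearMap.snd K (Matrix (Fin 3) (Fin 3) K)
      (Matrix (Fin 3) (Fin 2) K × Matrix (Fin 2) (Fin 3) K)))) (by
    rintro P ⟨x, hx, rfl⟩
    exact hr x hx)
  rcases this with ⟨p0, h⟩ | ⟨w0, h⟩
  · exact Or.inl ⟨p0, fun x hx => h _ ⟨x, hx, rfl⟩⟩
  · exact Or.inr ⟨w0, fun x hx => h _ ⟨x, hx, rfl⟩⟩

private theorem rankQ (hR : TaskRankOne) (N : Submodule K (Tr K)) (hr : ∀ x ∈ N, x.2.2.rank ≤ 1) :
    (∃ u0 : Fin 2 → K, ∀ x ∈ N, ∃ q, x.2.2 = vecMulVec u0 q) ∨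
    (∃ q0 : Fin 3 → K, ∀ x ∈ N, ∃ u, x.2.2 = vecMulVec u q0) := by
  have := hR K 2 3 (N.map ((LinearMap.snd K (Matrix (Fin 3) (Fin 2) K) (Matrix (Fin 2) (Fin 3) K)).comp
    (LinearMap.snd K (Matrix (Fin 3) (Fin 3) K)
      (Matrix (Fin 3) (Fin 2) K × Matrix (Fin 2) (Fin 3) K)))) (by
    rintro P ⟨x, hx, rfl⟩
    exact hr x hx)
  rcases this with ⟨p0, h⟩ | ⟨w0, h⟩
  · exact Or.inl ⟨p0, fun x hx => h _ ⟨x, hx, rfl⟩⟩
  · exact Or.inr ⟨w0, fun x hx => h _ ⟨x, hx, rfl⟩⟩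

private theorem caseA [Infinite K] (hR : TaskRankOne) (hPol : TaskPol) (hA1 : TaskA1)
    (hA2 : TaskA2) (hTwo : TaskTwo)
    (N : Submodule K (Tr K)) (hN : Blk K N) (hP : ∃ x ∈ N, x.2.1 ≠ 0)
    (hQ : ∃ x ∈ N, x.2.2.rank = 2) : Good K N := by
  have hr : ∀ x ∈ N, x.2.1.rank ≤ 1 := hTwo K N hN hQ
  rcases rankP hR N hr with ⟨p0, hp⟩ | ⟨w0, hw⟩
  · exact hA1 K N hN p0 hp hP hQ
  · by_cases hi : ∃ x ∈ N, ∃ y ∈ N, LinearIndependent K ![x.2.1, y.2.1]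
    · exact (hA2 hPol K N hN w0 hw hi hQ).elim
    · obtain ⟨p0, hp⟩ := redP N w0 hw hP hi
      exact hA1 K N hN p0 hp hP hQ

private theorem indepT {m n : ℕ} (A B : Matrix (Fin m) (Fin n) K)
    (h : LinearIndependent K ![A, B]) : LinearIndependent K ![Aᵀ, Bᵀ] := by
  rw [LinearIndependent.pair_iff] at h ⊢
  intro s t hst
  apply h s t
  have := congrArg Matrix.transpose hst
  simpa using this

theorem main : TaskCase := by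
  intro hR hPol hA1 hA2 hC1 hC2 hC4 hTr hTwo K _ _ N hN
  by_cases hQ0 : ∀ x ∈ N, x.2.2 = 0
  · exact Or.inl hQ0
  by_cases hP0 : ∀ x ∈ N, x.2.1 = 0
  · exact Or.inr (Or.inl hP0)
  have hQ : ∃ x ∈ N, x.2.2 ≠ 0 := by
    push Not at hQ0
    exact hQ0
  have hP : ∃ x ∈ N, x.2.1 ≠ 0 := by
    push Not at hP0
    exact hP0
  obtain ⟨hN', hG⟩ := hTr K N hN
  have mem : ∀ x ∈ N, trT K x ∈ N.map (trT K) := fun x hx => Submodule.mem_map_of_mem hx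
  have hP' : ∃ y ∈ N.map (trT K), y.2.1 ≠ 0 := by
    obtain ⟨x, hx, h⟩ := hQ
    refine ⟨_, mem x hx, fun h0 => h ?_⟩
    have h1 : x.2.2ᵀ = 0 := h0
    have := congrArg Matrix.transpose h1
    simpa using this
  by_cases h2 : ∃ x ∈ N, x.2.2.rank = 2
  · exact caseA hR hPol hA1 hA2 hTwo N hN hP h2
  by_cases h3 : ∃ x ∈ N, x.2.1.rank = 2
  · apply hG
    refine caseA hR hPol hA1 hA2 hTwo _ hN' hP' ?_
    obtain ⟨x, hx, h⟩ := h3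
    refine ⟨_, mem x hx, ?_⟩
    change (x.2.1ᵀ).rank = 2
    rw [rank_transpose]
    exact h
  have hrP : ∀ x ∈ N, x.2.1.rank ≤ 1 := by
    intro x hx
    have h1 := Matrix.rank_le_width x.2.1
    have h2' : x.2.1.rank ≠ 2 := fun h => h3 ⟨x, hx, h⟩
    omega
  have hrQ : ∀ x ∈ N, x.2.2.rank ≤ 1 := by
    intro x hx
    have h1 := Matrix.rank_le_height x.2.2
    have h2' : x.2.2.rank ≠ 2 := fun h => h2 ⟨x, hx, h⟩
    omega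
  have hPP : (∃ p0 : Fin 3 → K, ∀ x ∈ N, ∃ w, x.2.1 = vecMulVec p0 w) ∨
      (∃ w0 : Fin 2 → K, (∀ x ∈ N, ∃ p, x.2.1 = vecMulVec p w0) ∧
        ∃ x ∈ N, ∃ y ∈ N, LinearIndependent K ![x.2.1, y.2.1]) := by
    rcases rankP hR N hrP with h | ⟨w0, hw⟩
    · exact Or.inl h
    · by_cases hi : ∃ x ∈ N, ∃ y ∈ N, LinearIndependent K ![x.2.1, y.2.1]
      · exact Or.inr ⟨w0, hw, hi⟩
      · exact Or.inl (redP N w0 hw hP hi)
  have hQQ : (∃ q0 : Fin 3 → K, ∀ x ∈ N, ∃ u, x.2.2 = vecMulVec u q0) ∨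
      (∃ u0 : Fin 2 → K, (∀ x ∈ N, ∃ q, x.2.2 = vecMulVec u0 q) ∧
        ∃ x ∈ N, ∃ y ∈ N, LinearIndependent K ![x.2.2, y.2.2]) := by
    rcases rankQ hR N hrQ with ⟨u0, hu⟩ | h
    · by_cases hi : ∃ x ∈ N, ∃ y ∈ N, LinearIndependent K ![x.2.2, y.2.2]
      · exact Or.inr ⟨u0, hu, hi⟩
      · exact Or.inl (redQ N u0 hu hQ hi)
    · exact Or.inl h
  rcases hPP with ⟨p0, hp⟩ | ⟨w0, hw, hi⟩
  · rcases hQQ with ⟨q0, hq⟩ | ⟨u0, hu, hj⟩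
    · exact hC1 K N hN p0 q0 hp hq hP hQ
    · exact hC2 hPol K N hN p0 u0 hp hu hP hj
  · rcases hQQ with ⟨q0, hq⟩ | ⟨u0, hu, hj⟩
    · apply hG
      refine hC2 hPol K _ hN' q0 w0 ?_ ?_ hP' ?_
      · rintro _ ⟨x, hx, rfl⟩
        obtain ⟨u, hu⟩ := hq x hx
        refine ⟨u, ?_⟩
        change x.2.2ᵀ = _
        rw [hu]
        ext i j
        simp only [vecMulVec_apply, Matrix.transpose_apply]
        ring
      · rintro _ ⟨x, hx, rfl⟩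
        obtain ⟨p, hp⟩ := hw x hx
        refine ⟨p, ?_⟩
        change x.2.1ᵀ = _
        rw [hp]
        ext i j
        simp only [vecMulVec_apply, Matrix.transpose_apply]
        ring
      · obtain ⟨x, hx, y, hy, h⟩ := hi
        exact ⟨_, mem x hx, _, mem y hy, indepT _ _ h⟩
    · exact (hC4 hPol K N hN w0 u0 hw hu hi hj).elim

end H321.FANO.TaskCase
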