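import Pool.Agent.Q321.FANO.Stmts

set_option autoImplicit false

namespace H321.FANO.TaskClass

open Matrix H321.FANO

variable {K : Type} [Field K]

/-- the 3+2 splitting -/
noncomputable def E (K : Type) [Field K] : ((Fin 3 → K) × (Fin 2 → K)) ≃ₗ[K] (Fin 5 → K) :=
  (LinearEquiv.sumArrowLequivProdArrow (Fin 3) (Fin 2) K K).symm ≪≫ₗ
    LinearEquiv.funCongrLeft K K (finSumFinEquiv (m := 3) (n := 2)).symm

theorem E_apply (a : Fin 3 → K) (b : Fin 2 → K) : E K (a, b) = Sum.elim a b ∘ (finSumFinEquiv (m := 3) (n := 2)).symm := by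
  rfl

/-- block matrix as 5x5 matrix -/
def B (M : Matrix (Fin 3) (Fin 3) K) (P : Matrix (Fin 3) (Fin 2) K) (Q : Matrix (Fin 2) (Fin 3) K)
    (D : Matrix (Fin 2) (Fin 2) K) : M5 K :=
  (fromBlocks M P Q D).submatrix (finSumFinEquiv (m := 3) (n := 2)).symm (finSumFinEquiv (m := 3) (n := 2)).symm

theorem B_mulVec (M : Matrix (Fin 3) (Fin 3) K) (P : Matrix (Fin 3) (Fin 2) K) (Q : Matrix (Fin 2) (Fin 3) K)
    (D : Matrix (Fin 2) (Fin 2) K) (a : Fin 3 → K) (b : Fin 2 → K) :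
    B M P Q D *ᵥ E K (a, b) = E K (M *ᵥ a + P *ᵥ b, Q *ᵥ a + D *ᵥ b) := by
  rw [E_apply, E_apply, B, submatrix_mulVec_equiv, fromBlocks_mulVec]
  simp [Function.comp_assoc]

theorem B_surj (X : M5 K) : ∃ M P Q D, X = B M P Q D := by
  set Y : Matrix (Fin 3 ⊕ Fin 2) (Fin 3 ⊕ Fin 2) K :=
    X.submatrix (finSumFinEquiv (m := 3) (n := 2)) (finSumFinEquiv (m := 3) (n := 2)) with hY
  refine ⟨Y.toBlocks₁₁, Y.toBlocks₁₂, Y.toBlocks₂₁, Y.toBlocks₂₂, ?_⟩
  rw [B, fromBlocks_toBlocks, hY, submatrix_submatrix]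
  simp

theorem B_add_smul (t : K) (M : Matrix (Fin 3) (Fin 3) K) (P : Matrix (Fin 3) (Fin 2) K) (Q : Matrix (Fin 2) (Fin 3) K)
    (D : Matrix (Fin 2) (Fin 2) K) : B 1 0 0 0 + t • B M P Q D = B (1 + t • M) (t • P) (t • Q) (t • D) := by
  show (fromBlocks 1 0 0 0 + t • fromBlocks M P Q D).submatrix _ _ = _
  rw [fromBlocks_smul, fromBlocks_add, B]
  simp

/-- the linear map of triples -/
def Phi (Ri Si : M5 K) : Tr K →ₗ[K] M5 K where
  toFun x := Ri * B x.1 x.2.1 x.2.2 0 * Si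
  map_add' x y := by
    rw [← Matrix.add_mul, ← Matrix.mul_add]
    congr 2
    show _ = (fromBlocks x.1 x.2.1 x.2.2 0 + fromBlocks y.1 y.2.1 y.2.2 0).submatrix _ _
    rw [fromBlocks_add, B]
    simp
  map_smul' c x := by
    simp only [RingHom.id_apply]
    rw [← Matrix.smul_mul, ← Matrix.mul_smul]
    congr 2
    show _ = (c • fromBlocks x.1 x.2.1 x.2.2 0).submatrix _ _
    rw [fromBlocks_smul, B]
    simp

theorem B_inj {M M' : Matrix (Fin 3) (Fin 3) K} {P P' : Matrix (Fin 3) (Fin 2) K} {Q Q' : Matrix (Fin 2) (Fin 3) K}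
    {D D' : Matrix (Fin 2) (Fin 2) K} (h : B M P Q D = B M' P' Q' D') : M = M' ∧ P = P' ∧ Q = Q' ∧ D = D' := by
  have h1 : fromBlocks M P Q D = fromBlocks M' P' Q' D' := by
    have := congrArg (fun X : M5 K => X.submatrix (finSumFinEquiv (m := 3) (n := 2))
      (finSumFinEquiv (m := 3) (n := 2))) h
    simpa [B] using this
  exact fromBlocks_inj.1 h1

def e1 (W0 : Submodule K (Fin 3 → K)) : (W0.prod (⊤ : Submodule K (Fin 2 → K))) ≃ₗ[K] W0 × (Fin 2 → K) where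
  toFun x := (⟨x.1.1, x.2.1⟩, x.1.2)
  invFun y := ⟨(y.1.1, y.2), ⟨y.1.2, trivial⟩⟩
  map_add' _ _ := rfl
  map_smul' _ _ := rfl
  left_inv _ := rfl
  right_inv _ := rfl

def e2 (W0 : Submodule K (Fin 3 → K)) : (W0.prod (⊥ : Submodule K (Fin 2 → K))) ≃ₗ[K] W0 where
  toFun x := ⟨x.1.1, x.2.1⟩
  invFun y := ⟨(y.1, 0), ⟨y.2, Submodule.zero_mem _⟩⟩
  map_add' _ _ := rfl
  map_smul' _ _ := rfl
  left_inv x := by
    have h : x.1.2 = 0 := (Submodule.mem_bot K).1 x.2.2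
    apply Subtype.ext
    exact Prod.ext rfl h.symm
  right_inv _ := rfl

theorem main : TaskClass := by
  intro hN hF hC hG K _ _ U hU
  -- rank 3 element
  obtain ⟨A, hA, hAr⟩ : ∃ A ∈ U, A.rank = 3 := by
    by_contra hcon
    push Not at hcon
    have := hF K U (fun X hX => by
      have h1 := hU.2 X hX
      have h2 := hcon X hX
      omega)
    rw [hU.1] at this
    omega
  obtain ⟨R, S, hR, hS, hRS⟩ := hN K A hAr
  obtain ⟨uR, rfl⟩ := hR
  obtain ⟨uS, rfl⟩ := hS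
  set R : M5 K := ↑uR with hRdef
  set S : M5 K := ↑uS with hSdef
  set Ri : M5 K := ↑uR⁻¹ with hRi
  set Si : M5 K := ↑uS⁻¹ with hSi
  have r1 : R * Ri = 1 := uR.mul_inv
  have r2 : Ri * R = 1 := uR.inv_mul
  have s1 : S * Si = 1 := uS.mul_inv
  have s2 : Si * S = 1 := uS.inv_mul
  have hJ : R * A * S = B 1 0 0 0 := hRS
  have hA' : A = Ri * B 1 0 0 0 * Si := by
    rw [← hJ]
    calc A = (Ri * R) * A * (S * Si) := by rw [r2, s1]; simp
      _ = Ri * (R * A * S) * Si := by simp only [Matrix.mul_assoc]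
  -- coefficients
  have key : ∀ M P Q D, Ri * B M P Q D * Si ∈ U → D = 0 ∧ Q * P = 0 ∧ Q * M * P = 0 ∧ Q * (M * M) * P = 0 := by
    intro M P Q D hX
    apply hC K M P Q D
    intro t
    have h1 : (A + t • (Ri * B M P Q D * Si)).rank ≤ 3 := hU.2 _ (U.add_mem hA (U.smul_mem t hX))
    have h2 : R * (A + t • (Ri * B M P Q D * Si)) * S = B (1 + t • M) (t • P) (t • Q) (t • D) := by
      rw [← B_add_smul, Matrix.mul_add, Matrix.add_mul, hJ, Matrix.mul_smul, Matrix.smul_mul]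
      congr 2
      calc R * (Ri * B M P Q D * Si) * S = (R * Ri) * B M P Q D * (Si * S) := by simp only [Matrix.mul_assoc]
        _ = _ := by rw [r1, s2]; simp
    have h3 : (B (1 + t • M) (t • P) (t • Q) (t • D)).rank ≤ 3 := by
      rw [← h2]
      exact le_trans (rank_mul_le_left _ _) (le_trans (rank_mul_le_right _ _) h1)
    have h4 : (B (1 + t • M) (t • P) (t • Q) (t • D)).rank =
        (fromBlocks (1 + t • M) (t • P) (t • Q) (t • D)).rank := by
      rw [B]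
      exact rank_submatrix _ _ _
    rw [← h4]
    exact h3
  -- N
  set N : Submodule K (Tr K) := U.comap (Phi Ri Si) with hNdef
  have hinj : Function.Injective (Phi Ri Si) := by
    intro x y hxy
    have h1 : Ri * B x.1 x.2.1 x.2.2 0 * Si = Ri * B y.1 y.2.1 y.2.2 0 * Si := hxy
    have h2 : B x.1 x.2.1 x.2.2 0 = B y.1 y.2.1 y.2.2 0 := by
      calc B x.1 x.2.1 x.2.2 0 = (R * Ri) * B x.1 x.2.1 x.2.2 0 * (Si * S) := by rw [r1, s2]; simp
        _ = R * (Ri * B x.1 x.2.1 x.2.2 0 * Si) * S := by simp only [Matrix.mul_assoc]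
        _ = R * (Ri * B y.1 y.2.1 y.2.2 0 * Si) * S := by rw [h1]
        _ = (R * Ri) * B y.1 y.2.1 y.2.2 0 * (Si * S) := by simp only [Matrix.mul_assoc]
        _ = _ := by rw [r1, s2]; simp
    obtain ⟨a, b, c, -⟩ := B_inj h2
    exact Prod.ext a (Prod.ext b c)
  have hsurj : ∀ X ∈ U, ∃ x : Tr K, Phi Ri Si x = X := by
    intro X hX
    obtain ⟨M, P, Q, D, h⟩ := B_surj (R * X * S)
    have hX' : X = Ri * B M P Q D * Si := by
      rw [← h]
      calc X = (Ri * R) * X * (S * Si) := by rw [r2, s1]; simp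
        _ = Ri * (R * X * S) * Si := by simp only [Matrix.mul_assoc]
    have hD := (key M P Q D (hX' ▸ hX)).1
    subst hD
    exact ⟨(M, P, Q), hX'.symm⟩
  have hmap : N.map (Phi Ri Si) = U := by
    apply le_antisymm
    · rintro _ ⟨x, hx, rfl⟩
      exact hx
    · intro X hX
      obtain ⟨x, rfl⟩ := hsurj X hX
      exact ⟨x, hX, rfl⟩
  have hB : Blk K N := by
    refine ⟨?_, ?_, ?_, ?_, ?_⟩
    · show Phi Ri Si (1, 0, 0) ∈ U
      have : Phi Ri Si ((1, 0, 0) : Tr K) = A := by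
        rw [hA']; rfl
      rw [this]; exact hA
    · rw [← hU.1, ← hmap]
      exact (Submodule.equivMapOfInjective (Phi Ri Si) hinj N).finrank_eq
    · intro x hx
      exact (key x.1 x.2.1 x.2.2 0 hx).2.1
    · intro x hx
      exact (key x.1 x.2.1 x.2.2 0 hx).2.2.1
    · intro x hx
      exact (key x.1 x.2.1 x.2.2 0 hx).2.2.2
  obtain ⟨W0, w1, w2, w3⟩ : ∃ W : Submodule K (Fin 3 → K), (∀ x ∈ N, ∀ w, x.2.1 *ᵥ w ∈ W) ∧
      (∀ x ∈ N, ∀ v ∈ W, x.2.2 *ᵥ v = 0) ∧ ∀ x ∈ N, ∀ v ∈ W, x.1 *ᵥ v ∈ W := by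
    rcases hG K N hB with h | h | h
    · exact ⟨⊤, fun _ _ _ => trivial, fun x hx v _ => by rw [h x hx]; simp, fun _ _ _ _ => trivial⟩
    · refine ⟨⊥, fun x hx w => by rw [h x hx]; simp, fun x hx v hv => ?_, fun x hx v hv => ?_⟩
      · rw [(Submodule.mem_bot K).1 hv]; simp
      · rw [(Submodule.mem_bot K).1 hv]; simp
    · exact h
  -- the compression
  have hcmp : Cmp K (Module.finrank K W0 + 2) (Module.finrank K W0) U := by
    have hSinj : Function.Injective (S.mulVecLin ∘ₗ (E K).toLinearMap) := by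
      rw [LinearMap.coe_comp]
      refine Function.Injective.comp ?_ (E K).injective
      intro a b hab
      have : Si *ᵥ (S *ᵥ a) = Si *ᵥ (S *ᵥ b) := by
        simp only [mulVecLin_apply] at hab
        rw [hab]
      simpa [mulVec_mulVec, s2] using this
    have hRinj : Function.Injective (Ri.mulVecLin ∘ₗ (E K).toLinearMap) := by
      rw [LinearMap.coe_comp]
      refine Function.Injective.comp ?_ (E K).injective
      intro a b hab
      have : R *ᵥ (Ri *ᵥ a) = R *ᵥ (Ri *ᵥ b) := by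
        simp only [mulVecLin_apply] at hab
        rw [hab]
      simpa [mulVec_mulVec, r1] using this
    refine ⟨(W0.prod ⊤).map (S.mulVecLin ∘ₗ (E K).toLinearMap), (W0.prod ⊥).map (Ri.mulVecLin ∘ₗ (E K).toLinearMap),
      ?_, ?_, ?_⟩
    · rw [← (Submodule.equivMapOfInjective _ hSinj _).finrank_eq]
      rw [(e1 W0).finrank_eq, Module.finrank_prod, Module.finrank_fin_fun]
    · rw [← (Submodule.equivMapOfInjective _ hRinj _).finrank_eq]
      exact (e2 W0).finrank_eq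
    · rintro X hX _ ⟨⟨a, b⟩, ⟨ha, -⟩, rfl⟩
      obtain ⟨x, rfl⟩ := hsurj X hX
      have hx : x ∈ N := hX
      refine ⟨(x.1 *ᵥ a + x.2.1 *ᵥ b, 0), ⟨W0.add_mem (w3 x hx a ha) (w1 x hx b), by simp⟩, ?_⟩
      show Ri *ᵥ (E K (x.1 *ᵥ a + x.2.1 *ᵥ b, 0)) = (Ri * B x.1 x.2.1 x.2.2 0 * Si) *ᵥ (S *ᵥ (E K (a, b)))
      rw [mulVec_mulVec, Matrix.mul_assoc, Matrix.mul_assoc, s2, Matrix.mul_one, ← mulVec_mulVec, B_mulVec,
        w2 x hx a ha]
      simp
  have hle : Module.finrank K W0 ≤ 3 := by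
    have := Submodule.finrank_le W0
    simpa using this
  interval_cases hw : Module.finrank K W0
  · exact Or.inr (Or.inr (Or.inr hcmp))
  · exact Or.inr (Or.inr (Or.inl hcmp))
  · exact Or.inr (Or.inl hcmp)
  · exact Or.inl hcmp

end H321.FANO.TaskClass
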