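import Pool.Agent.Q321.FANO.Stmts

/-! `gk` is closed (helper331) -/

set_option autoImplicit false

namespace H321.FANO.TaskClosed

open Matrix H321.FANO

private theorem rank_le_iff (K : Type) [Field K] {m n : Type} [Fintype m] [Fintype n]
    [DecidableEq m] [DecidableEq n] (A : Matrix m n K) (c : ℕ) :
    A.rank ≤ c ↔ ∀ (L : Matrix (Fin (c + 1)) m K) (R : Matrix n (Fin (c + 1)) K),
      (L * A * R).det = 0 := by
  constructor
  · intro h L R
    by_contra hd
    have hu : IsUnit (L * A * R) :=
      (Matrix.isUnit_iff_isUnit_det _).mpr (isUnit_iff_ne_zero.mpr hd)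
    have h1 := Matrix.rank_of_isUnit _ hu
    have h2 : (L * A * R).rank ≤ A.rank :=
      (Matrix.rank_mul_le_left _ _).trans (Matrix.rank_mul_le_right _ _)
    rw [Fintype.card_fin] at h1
    omega
  · intro h
    by_contra hc
    push Not at hc
    have hc' : c + 1 ≤ Module.finrank K (LinearMap.range A.mulVecLin) := hc
    obtain ⟨f, hf⟩ := exists_linearIndependent_of_le_finrank hc'
    choose r hr using fun j => LinearMap.mem_range.mp (f j).2
    let R : Matrix n (Fin (c + 1)) K := Matrix.of fun i j => r j i
    have hli : LinearIndependent K (fun j => A *ᵥ r j) := by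
      have h1 := hf.map' (Submodule.subtype _) (Submodule.ker_subtype _)
      have h2 : (fun j => A *ᵥ r j) =
          ((LinearMap.range A.mulVecLin).subtype ∘ f) := by
        funext j
        exact hr j
      rw [h2]
      exact h1
    have hcol : (A * R).col = fun j => A *ᵥ r j := by
      funext j i
      simp [Matrix.col, Matrix.mul_apply, Matrix.mulVec, dotProduct, R]
    have hinj : Function.Injective (A * R).mulVec := by
      rw [Matrix.mulVec_injective_iff, hcol]
      exact hli
    have hker : LinearMap.ker (Matrix.toLin' (A * R)) = ⊥ := by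
      rw [LinearMap.ker_eq_bot]
      intro x y hxy
      exact hinj (by simpa [Matrix.toLin'_apply] using hxy)
    obtain ⟨g, hg⟩ := LinearMap.exists_leftInverse_of_injective _ hker
    have h3 : LinearMap.toMatrix' g * (A * R) = 1 := by
      have := congrArg LinearMap.toMatrix' hg
      rw [LinearMap.toMatrix'_comp, LinearMap.toMatrix'_toLin', LinearMap.toMatrix'_id] at this
      exact this
    have h4 := h (LinearMap.toMatrix' g) R
    rw [Matrix.mul_assoc, h3, Matrix.det_one] at h4
    exact one_ne_zero h4

private noncomputable def thePoly (K : Type) [Field K] (k c : ℕ) (v : Fin k → Fin 5 → K)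
    (L : Matrix (Fin (c + 1)) (Fin 11) K) (R : Matrix (Fin k × Fin 5) (Fin (c + 1)) K) :
    MvPolynomial (Fin 11 × Fin 5 × Fin 5) K :=
  (Matrix.of fun i j => ∑ q : Fin k × Fin 5, (∑ l : Fin 11, MvPolynomial.C (L i l) *
    ∑ b : Fin 5, MvPolynomial.X (l, q.2, b) * MvPolynomial.C (v q.1 b)) *
      MvPolynomial.C (R q j)).det

private def numMat (K : Type) [Field K] (k : ℕ) (v : Fin k → Fin 5 → K) (b : Fin 11 → M5 K) :
    Matrix (Fin 11) (Fin k × Fin 5) K :=
  Matrix.of fun i q => (b i *ᵥ v q.1) q.2

private theorem eval_thePoly (K : Type) [Field K] (k c : ℕ) (v : Fin k → Fin 5 → K)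
    (L : Matrix (Fin (c + 1)) (Fin 11) K) (R : Matrix (Fin k × Fin 5) (Fin (c + 1)) K)
    (b : Fin 11 → M5 K) :
    MvPolynomial.eval (fun i : Fin 11 × Fin 5 × Fin 5 => b i.1 i.2.1 i.2.2)
      (thePoly K k c v L R) = (L * numMat K k v b * R).det := by
  unfold thePoly
  rw [RingHom.map_det]
  congr 1
  ext i j
  simp only [RingHom.mapMatrix_apply, Matrix.map_apply, Matrix.of_apply, map_sum, map_mul,
    MvPolynomial.eval_C, MvPolynomial.eval_X, Matrix.mul_apply, numMat, Matrix.mulVec, dotProduct]

theorem main : TaskClosed := by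
  intro K _ k c
  refine ⟨{f | ∃ v L R, f = thePoly K k c v L R}, fun b hb => ?_⟩
  have key : ∀ v : Fin k → Fin 5 → K,
      Module.finrank K ((Submodule.span K (Set.range b)).map (Lk K k v)) =
        (numMat K k v b).rank := by
    intro v
    rw [Matrix.rank_eq_finrank_span_row, Submodule.map_span, ← Set.range_comp]
    have h1 : (Lk K k v ∘ b) =
        (LinearEquiv.curry K K (Fin k) (Fin 5)) ∘ (numMat K k v b).row := by
      funext i j a
      rfl
    rw [h1, Set.range_comp]
    have h2 := Submodule.map_span (LinearEquiv.curry K K (Fin k) (Fin 5)).toLinearMap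
      (Set.range (numMat K k v b).row)
    have h3 := LinearEquiv.finrank_map_eq (LinearEquiv.curry K K (Fin k) (Fin 5))
      (Submodule.span K (Set.range (numMat K k v b).row))
    rw [← h3]
    exact congrArg (fun S : Submodule K _ => Module.finrank K S) h2.symm
  constructor
  · rintro h f ⟨v, L, R, rfl⟩
    rw [eval_thePoly]
    refine (rank_le_iff K _ c).mp ?_ L R
    rw [← key]
    exact h v
  · intro h v
    rw [key, rank_le_iff]
    intro L R
    rw [← eval_thePoly]
    exact h _ ⟨v, L, R, rfl⟩

end H321.FANO.TaskClosed
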