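import Pool.Agent.Q321.FANO.Stmts

set_option autoImplicit false

namespace H321.FANO.TaskFinal

open Matrix H321.FANO

theorem main : TaskFinal := by
  intro hcl h53 h42 h31 h20 hT hC hZ hE K _ _
  refine ⟨fun U => gk K 2 7 U ∧ gk K 3 9 U, fun U => gk K 2 7 (tU K U) ∧ gk K 3 9 (tU K U), ?_, ?_, ?_, ?_, ?_, ?_⟩
  · exact (hZ K).1 _ _ (hC K 2 7) (hC K 3 9)
  · exact (hZ K).2 (fun U => gk K 2 7 U ∧ gk K 3 9 U) ((hZ K).1 _ _ (hC K 2 7) (hC K 3 9))
  · obtain ⟨U, hU, hc⟩ := hE K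
    exact ⟨U, hU, h53 K U hc⟩
  · obtain ⟨U, hU, hc⟩ := hE K
    refine ⟨tU K U, (hT K U).2.2 hU, ?_⟩
    show gk K 2 7 (tU K (tU K U)) ∧ gk K 3 9 (tU K (tU K U))
    rw [(hT K U).2.1]
    exact h53 K U hc
  · intro U hU
    rcases hcl K U hU with h | h | h | h
    · exact Or.inl (h53 K U h)
    · exact Or.inl (h42 K U h)
    · right
      exact h42 K _ ((hT K U).1 3 1 (by norm_num) (by norm_num) h)
    · right
      exact h53 K _ ((hT K U).1 2 0 (by norm_num) (by norm_num) h)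
  · rintro U hU ⟨⟨hc1, hc2⟩, ⟨hd1, hd2⟩⟩
    have hd : Module.finrank K U = 11 := hU.1
    have hd' : Module.finrank K (tU K U) = 11 := ((hT K U).2.2 hU).1
    rcases hcl K U hU with h | h | h | h
    · exact h20 K _ hd' ((hT K U).1 5 3 (by norm_num) (by norm_num) h) hd2
    · exact h31 K _ hd' ((hT K U).1 4 2 (by norm_num) (by norm_num) h) hd1
    · exact h31 K _ hd h hc1
    · exact h20 K _ hd h hc2

end H321.FANO.TaskFinal
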