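import Pool.Agent.Q321.FANO.Stmts

/-! FANO.Flanders (helper234): spaces of 5x5 matrices of rank at most 2 have dimension at most 10. -/

namespace H321.FANO.TaskFlanders
open Matrix H321.FANO

variable {K : Type} [Field K]

/-- position `p` comes before `q` in row-major order -/
def Bef (p q : Fin 5 × Fin 5) : Prop := p.1 < q.1 ∨ (p.1 = q.1 ∧ p.2 < q.2)

/-- `q` is the leading position of `A` -/
def Lead (A : M5 K) (q : Fin 5 × Fin 5) : Prop := A q.1 q.2 ≠ 0 ∧ ∀ p, Bef p q → A p.1 p.2 = 0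

theorem exists_lead (A : M5 K) (hA : A ≠ 0) : ∃ q, Lead A q := by
  classical
  -- first nonzero row
  have h1 : ∃ i, ∃ j, A i j ≠ 0 := by
    by_contra h
    push Not at h
    exact hA (by ext i j; exact h i j)
  have hS : (Finset.univ.filter (fun i : Fin 5 => ∃ j, A i j ≠ 0)).Nonempty := by
    obtain ⟨i, hi⟩ := h1
    exact ⟨i, by simpa using hi⟩
  obtain ⟨i, hi, himin⟩ := Finset.exists_min_image _ id hS
  simp only [Finset.mem_filter, Finset.mem_univ, true_and] at hi himin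
  have hT : (Finset.univ.filter (fun j : Fin 5 => A i j ≠ 0)).Nonempty := by
    obtain ⟨j, hj⟩ := hi
    exact ⟨j, by simpa using hj⟩
  obtain ⟨j, hj, hjmin⟩ := Finset.exists_min_image _ id hT
  simp only [Finset.mem_filter, Finset.mem_univ, true_and] at hj hjmin
  refine ⟨(i, j), hj, ?_⟩
  rintro ⟨a, b⟩ hab
  by_contra hne
  rcases hab with h | ⟨h, h'⟩
  · exact absurd (himin a ⟨b, hne⟩) (not_le.mpr h)
  · simp only at h h' hne
    subst h
    exact absurd (hjmin b hne) (not_le.mpr h')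

/-- the 3x3 minor is nonzero for leading positions -/
theorem det_ne (j1 j2 j3 : Fin 5) (h12 : j1 ≠ j2) (h13 : j1 ≠ j3) (h23 : j2 ≠ j3)
    (a b c : Fin 5 → K) (ha : a j1 ≠ 0) (ha' : ∀ j < j1, a j = 0) (hb : b j2 ≠ 0)
    (hb' : ∀ j < j2, b j = 0) (hc : c j3 ≠ 0) (hc' : ∀ j < j3, c j = 0) :
    a j1 * b j2 * c j3 - a j1 * b j3 * c j2 - a j2 * b j1 * c j3 + a j2 * b j3 * c j1 +
      a j3 * b j1 * c j2 - a j3 * b j2 * c j1 ≠ 0 := by
  have e1 : a j2 * b j1 = 0 := by
    rcases lt_or_gt_of_ne h12 with h | h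
    · rw [hb' _ h, mul_zero]
    · rw [ha' _ h, zero_mul]
  have e2 : a j3 * c j1 = 0 := by
    rcases lt_or_gt_of_ne h13 with h | h
    · rw [hc' _ h, mul_zero]
    · rw [ha' _ h, zero_mul]
  have e3 : b j3 * c j2 = 0 := by
    rcases lt_or_gt_of_ne h23 with h | h
    · rw [hc' _ h, mul_zero]
    · rw [hb' _ h, zero_mul]
  have e4 : a j2 * b j3 * c j1 = 0 := by
    rcases lt_or_gt_of_ne h12 with h | h
    · rcases lt_or_gt_of_ne h23 with h' | h'
      · rw [hc' _ (h.trans h'), mul_zero]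
      · rw [hb' _ h', mul_zero, zero_mul]
    · rw [ha' _ h, zero_mul, zero_mul]
  have e5 : a j3 * b j1 * c j2 = 0 := by
    rcases lt_or_gt_of_ne h13 with h | h
    · rcases lt_or_gt_of_ne h12 with h' | h'
      · rw [hb' _ h', mul_zero, zero_mul]
      · rw [hc' _ (h'.trans h), mul_zero]
    · rw [ha' _ h, zero_mul, zero_mul]
  have : a j1 * b j2 * c j3 - a j1 * b j3 * c j2 - a j2 * b j1 * c j3 + a j2 * b j3 * c j1 +
      a j3 * b j1 * c j2 - a j3 * b j2 * c j1 = a j1 * b j2 * c j3 := by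
    linear_combination (-(c j3)) * e1 - (b j2) * e2 - (a j1) * e3 + e4 + e5
  rw [this]
  exact mul_ne_zero (mul_ne_zero ha hb) hc

theorem minor_zero (X : M5 K) (hX : X.rank ≤ 2) (f g : Fin 3 → Fin 5) : (X.submatrix f g).det = 0 := by
  by_contra h
  have hu : IsUnit (X.submatrix f g) := (Matrix.isUnit_iff_isUnit_det _).mpr (isUnit_iff_ne_zero.mpr h)
  have h3 : (X.submatrix f g).rank = 3 := by
    rw [Matrix.rank_of_isUnit _ hu]; simp
  have h4 : X.submatrix f g = ((1 : M5 K).submatrix f id) * X * ((1 : M5 K).submatrix id g) := by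
    ext i j
    simp [Matrix.mul_apply, Matrix.one_apply]
  have h5 : (X.submatrix f g).rank ≤ X.rank := by
    rw [h4]
    exact (Matrix.rank_mul_le_left _ _).trans (Matrix.rank_mul_le_right _ _)
  omega

theorem key (U : Submodule K (M5 K)) (hU : ∀ X ∈ U, X.rank ≤ 2) (A B C : M5 K) (hA : A ∈ U)
    (hB : B ∈ U) (hC : C ∈ U) (i1 i2 i3 j1 j2 j3 : Fin 5) (h12 : i1 < i2) (h23 : i2 < i3)
    (k12 : j1 ≠ j2) (k13 : j1 ≠ j3) (k23 : j2 ≠ j3) (lA : Lead A (i1, j1)) (lB : Lead B (i2, j2))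
    (lC : Lead C (i3, j3)) : False := by
  have hz : ∀ x y : K, ((A + x • B + y • C).submatrix ![i1, i2, i3] ![j1, j2, j3]).det = 0 := by
    intro x y
    apply minor_zero
    exact hU _ (U.add_mem (U.add_mem hA (U.smul_mem _ hB)) (U.smul_mem _ hC))
  have b1 : ∀ j, B i1 j = 0 := fun j => lB.2 (i1, j) (Or.inl h12)
  have c1 : ∀ j, C i1 j = 0 := fun j => lC.2 (i1, j) (Or.inl (h12.trans h23))
  have c2 : ∀ j, C i2 j = 0 := fun j => lC.2 (i2, j) (Or.inl h23)
  have hd := det_ne j1 j2 j3 k12 k13 k23 (A i1) (B i2) (C i3) lA.1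
    (fun j hj => lA.2 (i1, j) (Or.inr ⟨rfl, hj⟩)) lB.1
    (fun j hj => lB.2 (i2, j) (Or.inr ⟨rfl, hj⟩)) lC.1
    (fun j hj => lC.2 (i3, j) (Or.inr ⟨rfl, hj⟩))
  apply hd
  have z00 := hz 0 0
  have z01 := hz 0 1
  have z10 := hz 1 0
  have z11 := hz 1 1
  simp only [Matrix.det_fin_three, Matrix.submatrix_apply, Matrix.add_apply, Matrix.smul_apply,
    smul_eq_mul, Matrix.cons_val_zero, Matrix.cons_val_one, Matrix.cons_val, b1, c1, c2] at z00 z01 z10 z11
  linear_combination z11 - z10 - z01 + z00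

theorem main : TaskFlanders := by
  classical
  intro K _ _ U hU
  by_contra hcon
  push Not at hcon
  let L : Finset (Fin 5 × Fin 5) := Finset.univ.filter (fun q => ∃ A ∈ U, Lead A q)
  have hcard : Module.finrank K U ≤ L.card := by
    let φ : U →ₗ[K] (L → K) :=
      { toFun := fun A q => (A : M5 K) q.1.1 q.1.2
        map_add' := by intro A B; rfl
        map_smul' := by intro c A; rfl }
    have hinj : Function.Injective φ := by
      rw [← LinearMap.ker_eq_bot, LinearMap.ker_eq_bot']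
      intro A hA
      by_contra hne
      have hne' : (A : M5 K) ≠ 0 := fun h => hne (Subtype.ext h)
      obtain ⟨q, hq⟩ := exists_lead (A : M5 K) hne'
      have hqL : q ∈ L := by
        simp only [L, Finset.mem_filter, Finset.mem_univ, true_and]
        exact ⟨A, A.2, hq⟩
      exact hq.1 (congrFun hA ⟨q, hqL⟩)
    have := LinearMap.finrank_le_finrank_of_injective hinj
    simpa using this
  have hL : (Finset.univ : Finset (Fin 5)).card * 2 < L.card := by
    simp only [Finset.card_univ, Fintype.card_fin]; omega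
  obtain ⟨y, -, hy⟩ := Finset.exists_lt_card_fiber_of_mul_lt_card_of_maps_to
    (f := fun q : Fin 5 × Fin 5 => q.2 - q.1) (t := Finset.univ) (s := L) (fun _ _ => Finset.mem_univ _) hL
  obtain ⟨p, q, r, hp, hq, hr, hpq, hpr, hqr⟩ := Finset.two_lt_card_iff.mp hy
  simp only [L, Finset.mem_filter, Finset.mem_univ, true_and] at hp hq hr
  have key' : ∀ p q r : Fin 5 × Fin 5, ((∃ A ∈ U, Lead A p) ∧ p.2 - p.1 = y) →
      ((∃ A ∈ U, Lead A q) ∧ q.2 - q.1 = y) → ((∃ A ∈ U, Lead A r) ∧ r.2 - r.1 = y) →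
      p.1 < q.1 → q.1 < r.1 → False := by
    rintro ⟨i1, j1⟩ ⟨i2, j2⟩ ⟨i3, j3⟩ ⟨⟨A, hA, lA⟩, y1⟩ ⟨⟨B, hB, lB⟩, y2⟩ ⟨⟨C, hC, lC⟩, y3⟩ h h'
    simp only at h h' y1 y2 y3
    have e1 : j1 = y + i1 := by rw [← y1]; simp
    have e2 : j2 = y + i2 := by rw [← y2]; simp
    have e3 : j3 = y + i3 := by rw [← y3]; simp
    refine key U hU A B C hA hB hC i1 i2 i3 j1 j2 j3 h h' ?_ ?_ ?_ lA lB lC
    · rw [e1, e2]; intro h0; exact h.ne (add_left_cancel h0)
    · rw [e1, e3]; intro h0; exact (h.trans h').ne (add_left_cancel h0)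
    · rw [e2, e3]; intro h0; exact h'.ne (add_left_cancel h0)
  have inj : ∀ p q : Fin 5 × Fin 5, p.2 - p.1 = y → q.2 - q.1 = y → p ≠ q → p.1 ≠ q.1 := by
    rintro ⟨i1, j1⟩ ⟨i2, j2⟩ y1 y2 hne h
    apply hne
    simp only at y1 y2 h
    subst h
    have e1 : j1 = y + i1 := by rw [← y1]; simp
    have e2 : j2 = y + i1 := by rw [← y2]; simp
    rw [e1, e2]
  have npq := inj p q hp.2 hq.2 hpq
  have npr := inj p r hp.2 hr.2 hpr
  have nqr := inj q r hq.2 hr.2 hqr
  rcases lt_or_gt_of_ne npq with h1 | h1 <;> rcases lt_or_gt_of_ne npr with h2 | h2 <;>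
    rcases lt_or_gt_of_ne nqr with h3 | h3
  · exact key' p q r hp hq hr h1 h3
  · exact key' p r q hp hr hq h2 h3
  · exact absurd (h1.trans h3) (not_lt.mpr h2.le)
  · exact key' r p q hr hp hq h2 h1
  · exact key' q p r hq hp hr h1 h2
  · exact absurd (h1.trans h2) (not_lt.mpr h3.le)
  · exact key' q r p hq hr hp h3 h2
  · exact key' r q p hr hq hp h3 h1

end H321.FANO.TaskFlanders
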