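import Pool.Agent.Q321.FANO.Stmts

/-! # `TaskLow20` -/

set_option autoImplicit false

namespace H321.FANO.TaskLow20

open Matrix H321.FANO

theorem main : TaskLow20 := by
  intro K _ U hU hC hg
  obtain ⟨V, W, hV, hW, hVW⟩ := hC
  have hW0 : W = ⊥ := Submodule.finrank_eq_zero.1 hW
  obtain ⟨V', hV'⟩ := Submodule.exists_isCompl V
  have h3 : Module.finrank K V' = 3 := by
    have h := Submodule.finrank_add_eq_of_isCompl hV'
    rw [Module.finrank_fin_fun, hV] at h
    omega
  obtain ⟨b⟩ : Nonempty (Module.Basis (Fin 3) K V') := ⟨Module.finBasisOfFinrankEq K V' h3⟩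
  have hinj : Function.Injective ((Lk K 3 (fun j => (b j : Fin 5 → K))).domRestrict U) := by
    rw [injective_iff_map_eq_zero]
    intro X hX
    have hX1 : ∀ j, X.1 *ᵥ (b j : Fin 5 → K) = 0 := fun j => congrFun hX j
    have hker1 : V ≤ LinearMap.ker (Matrix.mulVecLin X.1) := by
      intro v hv
      have h := hVW X.1 X.2 v hv
      rw [hW0, Submodule.mem_bot] at h
      exact h
    have hz : (Matrix.mulVecLin X.1).domRestrict V' = 0 := by
      apply b.ext
      intro j
      exact hX1 j
    have hker2 : V' ≤ LinearMap.ker (Matrix.mulVecLin X.1) := by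
      intro v hv
      have h := LinearMap.congr_fun hz ⟨v, hv⟩
      exact h
    have htop : (⊤ : Submodule K (Fin 5 → K)) ≤ LinearMap.ker (Matrix.mulVecLin X.1) := by
      rw [← hV'.sup_eq_top]
      exact sup_le hker1 hker2
    apply Subtype.ext
    change X.1 = 0
    ext i j
    have h : X.1 *ᵥ (Pi.single j 1) = 0 := htop (Submodule.mem_top (x := Pi.single j 1))
    have h2 := congrFun h i
    rw [Matrix.mulVec_single_one] at h2
    exact h2
  have h1 := LinearMap.finrank_range_of_inj hinj
  rw [LinearMap.range_domRestrict, hU] at h1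
  have h2 := hg (fun j => (b j : Fin 5 → K))
  omega

end H321.FANO.TaskLow20
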