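import Pool.Agent.Q321.FANO.Stmts

set_option autoImplicit false

namespace H321.FANO.TaskLow31

open Matrix H321.FANO

theorem main : TaskLow31 := by
  intro K _ U hU hc hg
  obtain ⟨V, W, hV, hW, hUVW⟩ := hc
  obtain ⟨C, hC⟩ := V.exists_isCompl
  have hCd : Module.finrank K C = 2 := by
    have := Submodule.finrank_add_eq_of_isCompl hC
    rw [Module.finrank_fin_fun] at this
    omega
  let b := Module.finBasisOfFinrankEq K C hCd
  let v : Fin 2 → Fin 5 → K := fun i => (b i : Fin 5 → K)
  have h7 := hg v
  let f := (Lk K 2 v).domRestrict U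
  have hr : LinearMap.range f = U.map (Lk K 2 v) := LinearMap.range_domRestrict U _
  have hrn := LinearMap.finrank_range_add_finrank_ker f
  rw [hr, hU] at hrn
  let G : LinearMap.ker f →ₗ[K] (V →ₗ[K] W) :=
    { toFun := fun X => (Matrix.mulVecLin (X.1.1)).restrict (fun w hw => hUVW _ X.1.2 w hw)
      map_add' := by
        intro X Y
        refine LinearMap.ext fun w => Subtype.ext ?_
        exact Matrix.add_mulVec X.1.1 Y.1.1 w.1
      map_smul' := by
        intro c X
        refine LinearMap.ext fun w => Subtype.ext ?_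
        exact Matrix.smul_mulVec c X.1.1 w.1 }
  have hinj : Function.Injective G := by
    rw [injective_iff_map_eq_zero]
    intro X hX
    have hX1 : ∀ w ∈ V, X.1.1 *ᵥ w = 0 := by
      intro w hw
      have h1 := LinearMap.congr_fun hX ⟨w, hw⟩
      have h2 := congrArg Subtype.val h1
      exact h2
    have hX2 : ∀ i, X.1.1 *ᵥ v i = 0 := by
      intro i
      have h1 : f X.1 = 0 := X.2
      exact congrFun h1 i
    have hX3 : ∀ c ∈ C, X.1.1 *ᵥ c = 0 := by
      intro c hc
      have h1 := b.sum_repr ⟨c, hc⟩
      have h2 := congrArg Subtype.val h1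
      have h3 : c = ∑ i, b.repr ⟨c, hc⟩ i • v i := by
        refine h2.symm.trans ?_
        rw [Submodule.coe_sum]
        rfl
      rw [h3]
      change (Matrix.mulVecLin X.1.1) _ = 0
      rw [map_sum]
      refine Finset.sum_eq_zero fun i _ => ?_
      rw [map_smul]
      change _ • (X.1.1 *ᵥ v i) = 0
      rw [hX2, smul_zero]
    have hX4 : ∀ w, X.1.1 *ᵥ w = 0 := by
      intro w
      have hw : w ∈ V ⊔ C := by rw [hC.sup_eq_top]; trivial
      obtain ⟨a, ha, c, hc, rfl⟩ := Submodule.mem_sup.1 hw
      rw [Matrix.mulVec_add, hX1 a ha, hX3 c hc, add_zero]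
    have hX5 : X.1.1 = 0 := by
      ext i j
      have := congrFun (hX4 (Pi.single j 1)) i
      simpa using this
    exact Subtype.ext (Subtype.ext hX5)
  have h3 := LinearMap.finrank_le_finrank_of_injective hinj
  rw [Module.finrank_linearMap, hV, hW] at h3
  omega

end H321.FANO.TaskLow31
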