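import Pool.Agent.Q321.FANO.Stmts

/-!
MP_d51aa1_ag, blueprint of helper321: spaces of matrices of rank at most 1 (task RankOne).
-/

set_option autoImplicit false

namespace H321.FANO.TaskRankOne

open Matrix H321.FANO

variable {K : Type} [Field K] {m n : ℕ}

theorem exists_vecMulVec (P : Matrix (Fin m) (Fin n) K) (h : P.rank ≤ 1) :
    ∃ p w, P = vecMulVec p w := by
  rw [Matrix.rank] at h
  obtain ⟨v, hv⟩ := finrank_le_one_iff.1 h
  have hc : ∀ j : Fin n, ∃ c : K, c • (v : Fin m → K) = P.mulVecLin (Pi.single j 1) := by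
    intro j
    obtain ⟨c, hc⟩ := hv ⟨P.mulVecLin (Pi.single j 1), LinearMap.mem_range_self _ _⟩
    exact ⟨c, congrArg Subtype.val hc⟩
  choose c hc using hc
  refine ⟨v, c, ?_⟩
  ext i j
  have := congrFun (hc j) i
  rw [Matrix.mulVecLin_apply, Matrix.mulVec_single_one] at this
  rw [vecMulVec_apply]
  simp only [Pi.smul_apply, smul_eq_mul] at this
  rw [mul_comm, this]
  rfl

/-- parallel vectors -/
def Par {N : ℕ} (u v : Fin N → K) : Prop := ∀ j l, u j * v l = u l * v j

theorem par_or (a b : Fin m → K) (u v : Fin n → K)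
    (h : (vecMulVec a u + vecMulVec b v).rank ≤ 1) : Par a b ∨ Par u v := by
  obtain ⟨e, f, hM⟩ := exists_vecMulVec _ h
  have hm : ∀ i j, a i * u j + b i * v j = e i * f j := fun i j => by
    have := congrFun (congrFun hM i) j
    simpa [vecMulVec_apply] using this
  by_contra hcon
  rw [not_or] at hcon
  obtain ⟨h1, h2⟩ := hcon
  simp only [Par, not_forall] at h1 h2
  obtain ⟨i, k, h1⟩ := h1
  obtain ⟨j, l, h2⟩ := h2
  have key : (a i * b k - a k * b i) * (u j * v l - u l * v j) = 0 := by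
    have e1 : (a i * b k - a k * b i) * (u j * v l - u l * v j) =
        (a i * u j + b i * v j) * (a k * u l + b k * v l) -
        (a i * u l + b i * v l) * (a k * u j + b k * v j) := by ring
    rw [e1, hm, hm, hm, hm]
    ring
  rcases mul_eq_zero.1 key with h | h
  · exact h1 (sub_eq_zero.1 h)
  · exact h2 (sub_eq_zero.1 h)

theorem smul_of_par {N : ℕ} (u v : Fin N → K) (h : Par u v) (hu : u ≠ 0) : ∃ c : K, v = c • u := by
  obtain ⟨j, hj⟩ := Function.ne_iff.1 hu
  have hj' : u j ≠ 0 := hj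
  refine ⟨v j / u j, ?_⟩
  ext l
  rw [Pi.smul_apply, smul_eq_mul, div_mul_eq_mul_div, eq_div_iff hj', mul_comm (v l), h j l,
    mul_comm]

theorem main : H321.FANO.TaskRankOne := by
  intro K _ m n S hS
  by_cases h0 : ∀ P ∈ S, P = 0
  · refine Or.inl ⟨0, fun P hP => ⟨0, ?_⟩⟩
    rw [h0 P hP]
    ext i j
    simp [vecMulVec_apply]
  push Not at h0
  obtain ⟨P0, hP0, hne⟩ := h0
  obtain ⟨p0, w0, rfl⟩ := exists_vecMulVec P0 (hS _ hP0)
  have hp0 : p0 ≠ 0 := by
    rintro rfl
    apply hne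
    ext i j
    simp [vecMulVec_apply]
  have hw0 : w0 ≠ 0 := by
    rintro rfl
    apply hne
    ext i j
    simp [vecMulVec_apply]
  by_contra hcon
  rw [not_or] at hcon
  obtain ⟨hA, hB⟩ := hcon
  have hA' : ∃ P ∈ S, ∀ w, P ≠ vecMulVec p0 w := by
    by_contra h
    push Not at h
    exact hA ⟨p0, h⟩
  have hB' : ∃ P ∈ S, ∀ p, P ≠ vecMulVec p w0 := by
    by_contra h
    push Not at h
    exact hB ⟨w0, h⟩
  obtain ⟨P1, hP1, hn1⟩ := hA'
  obtain ⟨P2, hP2, hn2⟩ := hB'
  obtain ⟨p1, w1, rfl⟩ := exists_vecMulVec P1 (hS _ hP1)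
  obtain ⟨p2, w2, rfl⟩ := exists_vecMulVec P2 (hS _ hP2)
  have a1 : ¬ Par p0 p1 := by
    intro h
    obtain ⟨c, rfl⟩ := smul_of_par _ _ h hp0
    apply hn1 (c • w1)
    ext i j
    simp only [vecMulVec_apply, Pi.smul_apply, smul_eq_mul]
    ring
  have a2 : ¬ Par w0 w2 := by
    intro h
    obtain ⟨c, rfl⟩ := smul_of_par _ _ h hw0
    apply hn2 (c • p2)
    ext i j
    simp only [vecMulVec_apply, Pi.smul_apply, smul_eq_mul]
    ring
  have b1 : Par w0 w1 := (par_or p0 p1 w0 w1 (hS _ (S.add_mem hP0 hP1))).resolve_left a1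
  have b2 : Par p0 p2 := (par_or p0 p2 w0 w2 (hS _ (S.add_mem hP0 hP2))).resolve_right a2
  obtain ⟨c, rfl⟩ := smul_of_par _ _ b1 hw0
  obtain ⟨d, rfl⟩ := smul_of_par _ _ b2 hp0
  have hc : c ≠ 0 := by
    rintro rfl
    apply hn1 0
    ext i j
    simp [vecMulVec_apply]
  have hd : d ≠ 0 := by
    rintro rfl
    apply hn2 0
    ext i j
    simp [vecMulVec_apply]
  rcases par_or p1 (d • p0) (c • w0) w2 (hS _ (S.add_mem hP1 hP2)) with h | h
  · apply a1
    intro j l
    have := h l j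
    simp only [Pi.smul_apply, smul_eq_mul] at this
    apply mul_left_cancel₀ hd
    linear_combination this
  · apply a2
    intro j l
    have := h j l
    simp only [Pi.smul_apply, smul_eq_mul] at this
    apply mul_left_cancel₀ hc
    linear_combination this

end H321.FANO.TaskRankOne
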