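import Pool.Agent.Q321.FANO.Stmts

set_option autoImplicit false

namespace H321.FANO.TaskZC

open Matrix H321.FANO

private def sw : Fin 11 × Fin 5 × Fin 5 → Fin 11 × Fin 5 × Fin 5 := fun i => (i.1, i.2.2, i.2.1)

theorem main : TaskZC := by
  intro K _
  refine ⟨?_, ?_⟩
  · rintro C D ⟨S, hS⟩ ⟨S', hS'⟩
    refine ⟨S ∪ S', fun b hb => ?_⟩
    constructor
    · rintro ⟨h1, h2⟩ f hf
      rcases hf with hf | hf
      · exact (hS b hb).1 h1 f hf
      · exact (hS' b hb).1 h2 f hf
    · intro h
      exact ⟨(hS b hb).2 (fun f hf => h f (Or.inl hf)), (hS' b hb).2 (fun f hf => h f (Or.inr hf))⟩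
  · rintro C ⟨S, hS⟩
    refine ⟨(MvPolynomial.rename sw) '' S, fun b hb => ?_⟩
    have hb' : LinearIndependent K (fun i => (b i)ᵀ) := by
      have := hb.map' (Matrix.transposeLinearEquiv (Fin 5) (Fin 5) K K).toLinearMap
        (LinearEquiv.ker _)
      exact this
    have hspan : tU K (Submodule.span K (Set.range b)) =
        Submodule.span K (Set.range (fun i => (b i)ᵀ)) := by
      unfold tU
      rw [Submodule.map_span, ← Set.range_comp]
      rfl
    show C (tU K (Submodule.span K (Set.range b))) ↔ _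
    rw [hspan, hS _ hb']
    constructor
    · rintro h _ ⟨f, hf, rfl⟩
      rw [MvPolynomial.eval_rename]
      exact h f hf
    · intro h f hf
      have := h _ ⟨f, hf, rfl⟩
      rw [MvPolynomial.eval_rename] at this
      exact this

end H321.FANO.TaskZC
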